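import Pool.Agent.W76.MO.Stmts

/-!
# MP_a187e6_nt: basic lemmas on cells, scales (helper683)
-/

set_option autoImplicit false

namespace Pool.Agent.W683.MO

open Finset Filter Topology
open scoped Classical
open Pool.Agent.W76.MO

theorem large (c C : ℝ) (K : ℕ) (hc : 0 < c) :
    ∃ J : ℕ, ∀ i : ℕ, J ≤ i → C * (i : ℝ) ^ K ≤ (2 : ℝ) ^ (c * i) := by
  have h1 : (1 : ℝ) < (2 : ℝ) ^ c := Real.one_lt_rpow (by norm_num) hc
  have h2 := isLittleO_pow_const_const_pow_of_one_lt (R := ℝ) K h1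
  have h3 := h2.bound (show (0 : ℝ) < 1 / (|C| + 1) by positivity)
  obtain ⟨J, hJ⟩ := eventually_atTop.1 h3
  refine ⟨J, fun i hi => ?_⟩
  have h4 := hJ i hi
  have h5 : ((2 : ℝ) ^ c) ^ i = (2 : ℝ) ^ (c * i) := by
    rw [Real.rpow_mul (by norm_num), Real.rpow_natCast]
  rw [h5, Real.norm_of_nonneg (by positivity), Real.norm_of_nonneg (by positivity)] at h4
  have h6 : C * (i : ℝ) ^ K ≤ (|C| + 1) * (i : ℝ) ^ K := by
    apply mul_le_mul_of_nonneg_right _ (by positivity)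
    have := le_abs_self C
    linarith
  refine h6.trans ?_
  have h7 : (0 : ℝ) < |C| + 1 := by positivity
  calc (|C| + 1) * (i : ℝ) ^ K ≤ (|C| + 1) * (1 / (|C| + 1) * (2 : ℝ) ^ (c * i)) :=
        mul_le_mul_of_nonneg_left h4 h7.le
    _ = _ := by field_simp

theorem hh_pos (δ : ℝ) (i : ℕ) : 0 < hh δ i := by unfold hh; positivity

theorem hh_posR (δ : ℝ) (i : ℕ) : (0 : ℝ) < hh δ i := by exact_mod_cast hh_pos δ i

theorem hh_le {δ : ℝ} (hδ : δ ≤ 1 / 2) (i : ℕ) :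
    (hh δ i : ℝ) ≤ (2 : ℝ) ^ ((1 / 2 - δ) * i) := by
  unfold hh
  push_cast
  rw [← Real.rpow_natCast]
  apply Real.rpow_le_rpow_of_exponent_le (by norm_num)
  apply Nat.floor_le
  have : (0 : ℝ) ≤ 1 / 2 - δ := by linarith
  positivity

theorem lt_hh {δ : ℝ} (i : ℕ) :
    (2 : ℝ) ^ ((1 / 2 - δ) * i) < 2 * hh δ i := by
  unfold hh
  push_cast
  rw [← Real.rpow_natCast]
  have h := Nat.lt_floor_add_one ((1 / 2 - δ) * (i : ℝ))
  calc (2 : ℝ) ^ ((1 / 2 - δ) * i) < (2 : ℝ) ^ (((⌊(1 / 2 - δ) * (i : ℝ)⌋₊ : ℕ) : ℝ) + 1) :=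
        Real.rpow_lt_rpow_of_exponent_lt (by norm_num) h
    _ = _ := by
        rw [Real.rpow_add (by norm_num), Real.rpow_one, mul_comm]

theorem hh_dvd {δ : ℝ} (hδ : 0 ≤ δ) (i : ℕ) : hh δ i ∣ 2 ^ i := by
  unfold hh
  apply pow_dvd_pow
  have h : (1 / 2 - δ) * (i : ℝ) ≤ i := by
    have : (0 : ℝ) ≤ i := by positivity
    nlinarith
  calc ⌊(1 / 2 - δ) * (i : ℝ)⌋₊ ≤ ⌊(i : ℝ)⌋₊ := Nat.floor_mono h
    _ = i := Nat.floor_natCast i

theorem nc_mul {δ : ℝ} (hδ : 0 ≤ δ) (i : ℕ) : nc δ i * hh δ i = 2 ^ i :=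
  Nat.div_mul_cancel (hh_dvd hδ i)

theorem nc_mulR {δ : ℝ} (hδ : 0 ≤ δ) (i : ℕ) : (nc δ i : ℝ) * hh δ i = 2 ^ i := by
  exact_mod_cast nc_mul hδ i

theorem le_nc {δ : ℝ} (hδ : 0 ≤ δ) (hδ' : δ ≤ 1 / 2) (i : ℕ) :
    (2 : ℝ) ^ ((1 / 2 + δ) * i) ≤ nc δ i := by
  have h1 := nc_mulR hδ i
  have h2 := hh_le hδ' i
  have h3 := hh_posR δ i
  have h4 : (2 : ℝ) ^ ((1 / 2 + δ) * i) * (2 : ℝ) ^ ((1 / 2 - δ) * i) = 2 ^ i := by
    rw [← Real.rpow_add (by norm_num), ← Real.rpow_natCast]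
    congr 1; ring
  have h5 : (2 : ℝ) ^ ((1 / 2 + δ) * i) * hh δ i ≤ (nc δ i : ℝ) * hh δ i := by
    rw [h1, ← h4]
    exact mul_le_mul_of_nonneg_left h2 (by positivity)
  exact le_of_mul_le_mul_right h5 h3

theorem nc_le {δ : ℝ} (hδ : 0 ≤ δ) (i : ℕ) :
    (nc δ i : ℝ) ≤ 2 * (2 : ℝ) ^ ((1 / 2 + δ) * i) := by
  have h1 := nc_mulR hδ i
  have h2 := lt_hh (δ := δ) i
  have h3 := hh_posR δ i
  have h4 : (2 : ℝ) ^ ((1 / 2 + δ) * i) * (2 : ℝ) ^ ((1 / 2 - δ) * i) = 2 ^ i := by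
    rw [← Real.rpow_add (by norm_num), ← Real.rpow_natCast]
    congr 1; ring
  have h5 : (nc δ i : ℝ) * hh δ i ≤ 2 * (2 : ℝ) ^ ((1 / 2 + δ) * i) * hh δ i := by
    rw [h1, ← h4]
    nlinarith [Real.rpow_pos_of_pos (show (0 : ℝ) < 2 by norm_num) ((1 / 2 + δ) * i)]
  exact le_of_mul_le_mul_right h5 h3

theorem mem_cell {δ : ℝ} {i k n : ℕ} :
    n ∈ cell δ i k ↔ 2 ^ i + k * hh δ i < n ∧ n ≤ 2 ^ i + (k + 1) * hh δ i := by
  unfold cell; exact mem_Ioc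

theorem cell_sub {δ : ℝ} (hδ : 0 ≤ δ) {i k : ℕ} (hk : k < nc δ i) {n : ℕ}
    (hn : n ∈ cell δ i k) : 2 ^ i < n ∧ n ≤ 2 ^ (i + 1) := by
  rw [mem_cell] at hn
  constructor
  · have := Nat.zero_le (k * hh δ i); omega
  · have h1 : (k + 1) * hh δ i ≤ nc δ i * hh δ i := Nat.mul_le_mul_right _ hk
    rw [nc_mul hδ] at h1
    rw [pow_succ]; omega

theorem card_cell (δ : ℝ) (i k : ℕ) : (cell δ i k).card = hh δ i := by
  unfold cell
  rw [Nat.card_Ioc, add_mul]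
  omega

theorem sc_eq {i n : ℕ} (h1 : 2 ^ i < n) (h2 : n ≤ 2 ^ (i + 1)) : Env.sc n = i := by
  unfold Env.sc
  rw [Nat.log_eq_iff]
  · constructor <;> omega
  · right
    have : 0 < 2 ^ i := by positivity
    constructor
    · norm_num
    · omega

theorem kx_eq (E : Env) {i k n : ℕ} (hk : k < nc E.δ i) (hn : n ∈ cell E.δ i k) :
    E.kx n = k := by
  have h := cell_sub E.hδ.le hk hn
  unfold Env.kx
  rw [sc_eq h.1 h.2]
  rw [mem_cell] at hn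
  have hp := hh_pos E.δ i
  rw [Nat.div_eq_iff hp]
  constructor
  · omega
  · have : (k + 1) * hh E.δ i = k * hh E.δ i + hh E.δ i := by ring
    omega

theorem mem_cell_kx (E : Env) {i n : ℕ} (h1 : 2 ^ i < n) (h2 : n ≤ 2 ^ (i + 1)) :
    E.kx n < nc E.δ i ∧ n ∈ cell E.δ i (E.kx n) := by
  unfold Env.kx
  rw [sc_eq h1 h2]
  have hp := hh_pos E.δ i
  have hm := nc_mul E.hδ.le i
  constructor
  · rw [Nat.div_lt_iff_lt_mul hp, hm]
    rw [pow_succ] at h2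
    omega
  · rw [mem_cell]
    have e1 := Nat.div_add_mod (n - 1 - 2 ^ i) (hh E.δ i)
    have e2 := Nat.mod_lt (n - 1 - 2 ^ i) hp
    set a := (n - 1 - 2 ^ i) / hh E.δ i
    have e3 : (a + 1) * hh E.δ i = hh E.δ i * a + hh E.δ i := by ring
    have e4 : a * hh E.δ i = hh E.δ i * a := by ring
    omega

/-- sum over a block as a sum over its cells -/
theorem sum_block {δ : ℝ} (hδ : 0 ≤ δ) (i : ℕ) (f : ℕ → ℝ) :
    ∑ n ∈ Ioc (2 ^ i) (2 ^ (i + 1)), f n = ∑ k ∈ range (nc δ i), ∑ n ∈ cell δ i k, f n := by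
  have key : ∀ m : ℕ, ∑ n ∈ Ioc (2 ^ i) (2 ^ i + m * hh δ i), f n =
      ∑ k ∈ range m, ∑ n ∈ cell δ i k, f n := by
    intro m
    induction m with
    | zero => simp
    | succ m ih =>
      rw [sum_range_succ, ← ih]
      unfold cell
      rw [Finset.sum_Ioc_consecutive]
      · omega
      · apply Nat.add_le_add_left
        exact Nat.mul_le_mul_right _ (Nat.le_succ m)
  rw [← key (nc δ i), nc_mul hδ, pow_succ]
  congr 2
  ring

/-- sum over several blocks -/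
theorem sum_blocks (j I : ℕ) (hI : j ≤ I) (f : ℕ → ℝ) :
    ∑ n ∈ Ioc (2 ^ j) (2 ^ I), f n = ∑ i ∈ Ico j I, ∑ n ∈ Ioc (2 ^ i) (2 ^ (i + 1)), f n := by
  induction I, hI using Nat.le_induction with
  | base => simp
  | succ m hm ih =>
    rw [sum_Ico_succ_top hm, ← ih, Finset.sum_Ioc_consecutive]
    · exact Nat.pow_le_pow_right (by norm_num) hm
    · exact Nat.pow_le_pow_right (by norm_num) (Nat.le_succ m)

theorem lp_mem {n : ℕ} (h : 0 < W76.MO.lp n) : W76.MO.lp n ∈ n.primeFactors := by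
  unfold W76.MO.lp at h ⊢
  have hne : n.primeFactors.Nonempty := by
    rw [Finset.nonempty_iff_ne_empty]
    intro h0
    rw [h0] at h
    simp at h
  obtain ⟨p, hp, he⟩ := Finset.exists_mem_eq_sup n.primeFactors hne id
  rw [he]
  exact hp

theorem le_lp {n p : ℕ} (h : p ∈ n.primeFactors) : p ≤ W76.MO.lp n := by
  unfold W76.MO.lp
  exact Finset.le_sup (f := id) h

/-- telescoping bound -/
theorem sum_tele (j I : ℕ) (hj : 1 ≤ j) (c : ℝ) (hc : 0 ≤ c) (f : ℕ → ℝ)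
    (hf : ∀ i ∈ Ico j I, f i ≤ c * (1 / (i : ℝ) - 1 / ((i : ℝ) + 1))) :
    ∑ i ∈ Ico j I, f i ≤ c / j := by
  have h1 : ∑ i ∈ Ico j I, f i ≤ ∑ i ∈ Ico j I, c * (1 / (i : ℝ) - 1 / ((i : ℝ) + 1)) :=
    sum_le_sum hf
  refine h1.trans ?_
  by_cases hI : j ≤ I
  · have h2 : ∑ i ∈ Ico j I, c * (1 / (i : ℝ) - 1 / ((i : ℝ) + 1)) = c * (1 / j - 1 / I) := by
      induction I, hI using Nat.le_induction with
      | base => simp
      | succ m hm ih =>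
        rw [sum_Ico_succ_top hm, ih]
        · push_cast; ring
        · intro i hi
          exact hf i (by rw [mem_Ico] at hi ⊢; omega)
        · exact sum_le_sum (fun i hi => hf i (by rw [mem_Ico] at hi ⊢; omega))
    rw [h2]
    have h3 : (0 : ℝ) ≤ 1 / I := by positivity
    have h4 : c * (1 / (j : ℝ) - 1 / I) ≤ c * (1 / j) :=
      mul_le_mul_of_nonneg_left (by linarith) hc
    rw [mul_one_div] at h4
    exact h4
  · rw [Ico_eq_empty (by omega)]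
    simp
    positivity

end Pool.Agent.W683.MO
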