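import Pool.Agent.W683.MO.GB2

/-!
# MP_a187e6_nt: task GB, part 3 (items 8, 9, assembly)
-/

set_option autoImplicit false

namespace Pool.Agent.W683.MO

open Finset Filter Topology
open scoped Classical
open Pool.Agent.W76.MO

theorem tele_id {i : ℕ} (hi : 2 ≤ i) :
    2 / (i : ℝ) ^ 40 ≤ 1 / 2 * (1 / (i : ℝ) - 1 / ((i : ℝ) + 1)) := by
  have hiR : (2 : ℝ) ≤ i := by exact_mod_cast hi
  have e1 : 1 / 2 * (1 / (i : ℝ) - 1 / ((i : ℝ) + 1)) = 1 / (2 * ((i : ℝ) * (i + 1))) := by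
    field_simp; ring
  rw [e1, div_le_div_iff₀ (by positivity) (by positivity)]
  have e2 : (2 : ℝ) ^ 38 ≤ (i : ℝ) ^ 38 := pow_le_pow_left₀ (by norm_num) hiR 38
  have e3 : (i : ℝ) ^ 40 = (i : ℝ) ^ 38 * (i : ℝ) ^ 2 := by ring
  rw [e3]
  have e4 : (8 : ℝ) * (i : ℝ) ^ 2 ≤ (i : ℝ) ^ 38 * (i : ℝ) ^ 2 := by
    apply mul_le_mul_of_nonneg_right _ (by positivity)
    exact le_trans (by norm_num) e2
  nlinarith

/-- item 8 -/
theorem gb8 (E : Env) : ∃ J : ℕ, 1 ≤ J ∧ ∀ j : ℕ, J ≤ j → ∀ P : Finset ℕ,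
    ∑ q ∈ P, (q * E.gh j q) * (q : ℝ) ^ (-1 + E.τ / 4) ≤ 1 / j := by
  have hδ := E.hδ
  have hδt := E.hδ'
  have hτ := E.hτ
  have hτ' := E.hτ'
  refine ⟨E.i₁ + 2, by omega, fun j hj P => ?_⟩
  -- the terms
  set T : ℕ → ℕ → ℕ → ℝ := fun i k n =>
    (E.w i / ((E.Host j i k).card : ℝ) * n) * ((W76.MO.lp n : ℕ) : ℝ) ^ (-1 + E.τ / 4) with hTdef
  have hTnn : ∀ i k n, 0 ≤ T i k n := by
    intro i k n
    have := w_nonneg E i
    simp only [hTdef]
    positivity
  set I : ℕ := P.sup (fun q => 2 * Nat.log 2 q + 3) with hI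
  have h1 : ∀ q ∈ P, (q * E.gh j q) * (q : ℝ) ^ (-1 + E.τ / 4) ≤
      ∑ i ∈ Ico j I, ∑ k ∈ E.Bad i, ∑ n ∈ (E.Host j i k).filter (fun n => W76.MO.lp n = q),
        T i k n := by
    intro q hq
    have hqI : 2 * Nat.log 2 q + 3 ≤ I :=
      Finset.le_sup (f := fun q => 2 * Nat.log 2 q + 3) hq
    by_cases hz : E.gh j q = 0
    · rw [hz, mul_zero, zero_mul]
      exact sum_nonneg (fun i _ => sum_nonneg (fun k _ => sum_nonneg (fun n _ => hTnn i k n)))
    · obtain ⟨i0, hji, -, k0, hk0, n0, hn0, hl0, -⟩ := gh_ne E hz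
      have hqp : q.Prime := by
        have := (host_spec E hn0).2.2.2.2.2.2.2.1
        rw [hl0] at this; exact this
      have hq0 : (0 : ℝ) < q := by exact_mod_cast hqp.pos
      unfold Env.gh
      rw [mul_sum, sum_mul]
      have e1 : ∑ i ∈ (range (2 * Nat.log 2 q + 3)).filter (fun i => j ≤ i),
          ((q : ℝ) * ∑ k ∈ E.Bad i, ∑ n ∈ (E.Host j i k).filter (fun n => W76.MO.lp n = q),
            E.w i / ((E.Host j i k).card : ℝ) * ((n : ℝ) / q)) * (q : ℝ) ^ (-1 + E.τ / 4) =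
          ∑ i ∈ (range (2 * Nat.log 2 q + 3)).filter (fun i => j ≤ i), ∑ k ∈ E.Bad i,
            ∑ n ∈ (E.Host j i k).filter (fun n => W76.MO.lp n = q), T i k n := by
        apply sum_congr rfl
        intro i _
        rw [mul_sum, sum_mul]
        apply sum_congr rfl
        intro k _
        rw [mul_sum, sum_mul]
        apply sum_congr rfl
        intro n hn
        rw [mem_filter] at hn
        simp only [hTdef, hn.2]
        field_simp
      rw [e1]
      apply sum_le_sum_of_subset_of_nonneg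
      · intro i hi
        rw [mem_filter, mem_range] at hi
        rw [mem_Ico]
        omega
      · intro i _ _
        exact sum_nonneg (fun k _ => sum_nonneg (fun n _ => hTnn i k n))
  refine (sum_le_sum h1).trans ?_
  rw [sum_comm]
  have h2 : ∀ i ∈ Ico j I, ∑ q ∈ P, ∑ k ∈ E.Bad i,
      ∑ n ∈ (E.Host j i k).filter (fun n => W76.MO.lp n = q), T i k n ≤
      1 * (1 / (i : ℝ) - 1 / ((i : ℝ) + 1)) := by
    intro i hi
    rw [mem_Ico] at hi
    have hi2 : 2 ≤ i := by omega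
    have hiR : (2 : ℝ) ≤ i := by exact_mod_cast hi2
    rw [sum_comm]
    have h3 : ∀ k ∈ E.Bad i, ∑ q ∈ P, ∑ n ∈ (E.Host j i k).filter
        (fun n => W76.MO.lp n = q), T i k n ≤
        E.w i * 2 ^ (i + 1) * ((2 : ℝ) ^ ((1 / 2 + E.τ) * i)) ^ (-1 + E.τ / 4) := by
      intro k hk
      have e1 : ∑ q ∈ P, ∑ n ∈ (E.Host j i k).filter (fun n => W76.MO.lp n = q), T i k n ≤
          ∑ n ∈ E.Host j i k, T i k n := by
        have e2 : ∀ q ∈ P, ∑ n ∈ (E.Host j i k).filter (fun n => W76.MO.lp n = q), T i k n =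
            ∑ n ∈ E.Host j i k, if W76.MO.lp n = q then T i k n else 0 := by
          intro q _
          rw [sum_filter]
        rw [sum_congr rfl e2, sum_comm]
        apply sum_le_sum
        intro n _
        rw [sum_ite_eq]
        split_ifs
        · exact le_refl _
        · exact hTnn i k n
      refine e1.trans ?_
      by_cases hne : (E.Host j i k).card = 0
      · rw [card_eq_zero] at hne
        rw [hne, sum_empty]
        have := w_nonneg E i
        positivity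
      · have hcpos : (0 : ℝ) < (E.Host j i k).card := by
          exact_mod_cast Nat.pos_of_ne_zero hne
        have e3 : ∀ n ∈ E.Host j i k, T i k n ≤ E.w i / ((E.Host j i k).card : ℝ) *
            (2 ^ (i + 1) * ((2 : ℝ) ^ ((1 / 2 + E.τ) * i)) ^ (-1 + E.τ / 4)) := by
          intro n hn
          have hs := host_spec E hn
          have hn2 := (cell_sub hδ.le (bad_lt E hk) hs.1).2
          have hnR : (n : ℝ) ≤ 2 ^ (i + 1) := by exact_mod_cast hn2
          have hl : ((W76.MO.lp n : ℕ) : ℝ) ^ (-1 + E.τ / 4) ≤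
              ((2 : ℝ) ^ ((1 / 2 + E.τ) * i)) ^ (-1 + E.τ / 4) :=
            Real.rpow_le_rpow_of_nonpos (by positivity) hs.2.1 (by linarith)
          have hw := w_nonneg E i
          simp only [hTdef]
          rw [mul_assoc]
          apply mul_le_mul_of_nonneg_left _ (by positivity)
          exact mul_le_mul hnR hl (by positivity) (by positivity)
        refine (sum_le_sum e3).trans (le_of_eq ?_)
        rw [sum_const, nsmul_eq_mul]
        field_simp
    refine (sum_le_sum h3).trans ?_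
    rw [sum_const, nsmul_eq_mul]
    have hb := card_bad E (show E.i₁ ≤ i by omega)
    have hw := w_nonneg E i
    have e4 : ((E.Bad i).card : ℝ) *
        (E.w i * 2 ^ (i + 1) * ((2 : ℝ) ^ ((1 / 2 + E.τ) * i)) ^ (-1 + E.τ / 4)) ≤
        (2 : ℝ) ^ (3 * E.δ * i) *
        (E.w i * 2 ^ (i + 1) * ((2 : ℝ) ^ ((1 / 2 + E.τ) * i)) ^ (-1 + E.τ / 4)) :=
      mul_le_mul_of_nonneg_right hb (by positivity)
    refine e4.trans ?_
    have e5 : (2 : ℝ) ^ (3 * E.δ * i) *
        (E.w i * 2 ^ (i + 1) * ((2 : ℝ) ^ ((1 / 2 + E.τ) * i)) ^ (-1 + E.τ / 4)) =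
        2 / (i : ℝ) ^ 40 * (2 : ℝ) ^ ((3 * E.δ - (1 / 2 + E.δ / 2) + 1 +
          (1 / 2 + E.τ) * (-1 + E.τ / 4)) * i) := by
      unfold Env.w
      have e6 : (2 : ℝ) ^ ((3 * E.δ - (1 / 2 + E.δ / 2) + 1 +
          (1 / 2 + E.τ) * (-1 + E.τ / 4)) * i) =
          (2 : ℝ) ^ (3 * E.δ * i) * (2 : ℝ) ^ (-(1 / 2 + E.δ / 2) * (i : ℝ)) * 2 ^ i *
            ((2 : ℝ) ^ ((1 / 2 + E.τ) * i)) ^ (-1 + E.τ / 4) := by
        rw [← Real.rpow_natCast 2 i, ← Real.rpow_mul (by norm_num),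
          ← Real.rpow_add (by norm_num), ← Real.rpow_add (by norm_num),
          ← Real.rpow_add (by norm_num)]
        congr 1; ring
      rw [e6, pow_succ]
      ring
    rw [e5]
    have e7 : (2 : ℝ) ^ ((3 * E.δ - (1 / 2 + E.δ / 2) + 1 +
          (1 / 2 + E.τ) * (-1 + E.τ / 4)) * i) ≤ 1 := by
      apply Real.rpow_le_one_of_one_le_of_nonpos (by norm_num)
      apply mul_nonpos_of_nonpos_of_nonneg _ (by positivity)
      nlinarith
    have e8 := tele_id hi2
    have e9 : (0 : ℝ) ≤ 2 / (i : ℝ) ^ 40 := by positivity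
    have e10 : 0 ≤ 1 / (i : ℝ) - 1 / ((i : ℝ) + 1) := by
      rw [sub_nonneg]
      apply one_div_le_one_div_of_le (by positivity)
      linarith
    calc _ ≤ 2 / (i : ℝ) ^ 40 * 1 := mul_le_mul_of_nonneg_left e7 e9
      _ ≤ 1 / 2 * (1 / (i : ℝ) - 1 / ((i : ℝ) + 1)) := by rw [mul_one]; exact e8
      _ ≤ _ := by linarith
  exact sum_tele j I (by omega) 1 (by norm_num) _ h2

/-- item 9 -/
theorem gb9 (E : Env) : ∃ J : ℕ, 1 ≤ J ∧ ∀ j : ℕ, J ≤ j → ∀ P : Finset ℕ,
    ∑ p ∈ P, E.gu j p * (p : ℝ) ^ (-E.δ / 2) ≤ 1 / j := by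
  have hδ := E.hδ
  obtain ⟨J1, hJ1⟩ := large (E.δ / 2) 64 2 (by linarith)
  refine ⟨J1 + E.i₁ + 3, by omega, fun j hj P => ?_⟩
  set f : ℕ → ℝ := fun p => E.gu j p * (p : ℝ) ^ (-E.δ / 2) with hf
  have hfnn : ∀ p, 0 ≤ f p := fun p => mul_nonneg (gu_nonneg E j p) (by positivity)
  set I : ℕ := j + P.sup id with hI
  have h1 : ∑ p ∈ P, f p ≤ ∑ p ∈ Ioc (2 ^ (j - 1)) (2 ^ I), f p := by
    have e1 : ∑ p ∈ P, f p = ∑ p ∈ P.filter (fun p => p ∈ Ioc (2 ^ (j - 1)) (2 ^ I)), f p := by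
      symm
      apply sum_filter_of_ne
      intro p hp hne
      have hU : E.U j p := by
        apply gu_ne E
        intro h0
        apply hne
        simp only [hf, h0, zero_mul]
      rw [mem_Ioc]
      refine ⟨hU.2, ?_⟩
      have e2 : p ≤ P.sup id := Finset.le_sup (f := id) hp
      have e3 : p < 2 ^ p := Nat.lt_two_pow_self
      have e4 : 2 ^ p ≤ 2 ^ I := Nat.pow_le_pow_right (by norm_num) (by omega)
      omega
    rw [e1]
    apply sum_le_sum_of_subset_of_nonneg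
    · intro p hp
      exact (mem_filter.1 hp).2
    · intro p _ _
      exact hfnn p
  refine h1.trans ?_
  have h2 : ∑ p ∈ Ioc (2 ^ (j - 1)) (2 ^ I), f p =
      ∑ p ∈ Ioc (2 ^ (j - 1)) (2 ^ j), f p +
        ∑ i ∈ Ico j I, ∑ k ∈ range (nc E.δ i), ∑ p ∈ cell E.δ i k, f p := by
    rw [← Finset.sum_Ioc_consecutive f (Nat.pow_le_pow_right (by norm_num) (by omega : j - 1 ≤ j))
      (Nat.pow_le_pow_right (by norm_num) (by omega : j ≤ I)), sum_blocks j I (by omega)]
    congr 1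
    apply sum_congr rfl
    intro i _
    exact sum_block hδ.le i f
  rw [h2]
  have hjpos : (0 : ℝ) < j := by exact_mod_cast (by omega : 0 < j)
  -- special block
  have h3 : ∑ p ∈ Ioc (2 ^ (j - 1)) (2 ^ j), f p ≤ (1 / 2) / j := by
    have e1 : ∀ p ∈ Ioc (2 ^ (j - 1)) (2 ^ j), f p ≤ if E.isU p then
        (8 * j / ((E.UB j).card : ℝ)) * ((2 : ℝ) ^ (j - 1)) ^ (-E.δ / 2) else 0 := by
      intro p hp
      rw [mem_Ioc] at hp
      simp only [hf]
      split_ifs with h
      · have hU : E.U j p := ⟨h, hp.1⟩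
        have hgu : E.gu j p = 8 * j / ((E.UB j).card : ℝ) := by
          unfold Env.gu
          rw [if_pos hU, if_pos hp.2]
        rw [hgu]
        apply mul_le_mul_of_nonneg_left _ (by positivity)
        apply Real.rpow_le_rpow_of_nonpos (by positivity) _ (by linarith)
        exact_mod_cast hp.1.le
      · have hgu : E.gu j p = 0 := by
          unfold Env.gu
          rw [if_neg (fun hU => h hU.1)]
        rw [hgu, zero_mul]
    refine (sum_le_sum e1).trans ?_
    rw [← sum_filter, sum_const, nsmul_eq_mul]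
    have e2 : (((Ioc (2 ^ (j - 1)) (2 ^ j)).filter E.isU).card : ℝ) = ((E.UB j).card : ℝ) := rfl
    rw [e2]
    have e3 : ((E.UB j).card : ℝ) * ((8 * j / ((E.UB j).card : ℝ)) *
        ((2 : ℝ) ^ (j - 1)) ^ (-E.δ / 2)) ≤ 8 * j * ((2 : ℝ) ^ (j - 1)) ^ (-E.δ / 2) := by
      by_cases hz : ((E.UB j).card : ℝ) = 0
      · rw [hz, zero_mul]; positivity
      · apply le_of_eq
        field_simp
    refine e3.trans ?_
    set i := j - 1 with hi
    have hbig := hJ1 i (by omega)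
    have e4 : ((2 : ℝ) ^ i) ^ (-E.δ / 2) = ((2 : ℝ) ^ (E.δ / 2 * i))⁻¹ := by
      rw [← Real.rpow_natCast, ← Real.rpow_mul (by norm_num), ← Real.rpow_neg (by norm_num)]
      congr 1; ring
    rw [e4, ← div_eq_mul_inv, div_le_div_iff₀ (by positivity) hjpos]
    have e5 : (j : ℝ) ≤ 2 * i := by exact_mod_cast (by omega : j ≤ 2 * i)
    nlinarith
  -- the other blocks
  have h4 : ∑ i ∈ Ico j I, ∑ k ∈ range (nc E.δ i), ∑ p ∈ cell E.δ i k, f p ≤ (1 / 2) / j := by
    apply sum_tele j I (by omega) (1 / 2) (by norm_num)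
    intro i hi
    rw [mem_Ico] at hi
    have hi2 : 2 ≤ i := by omega
    refine le_trans ?_ (tele_id hi2)
    have hw := w_nonneg E i
    have e1 : ∀ k ∈ range (nc E.δ i), ∑ p ∈ cell E.δ i k, f p ≤
        E.w i * ((2 : ℝ) ^ i) ^ (-E.δ / 2) := by
      intro k hk
      rw [mem_range] at hk
      have e2 : ∀ p ∈ cell E.δ i k, f p ≤ if E.isU p then
          E.w i / (((cell E.δ i k).filter E.isU).card : ℝ) * ((2 : ℝ) ^ i) ^ (-E.δ / 2)
          else 0 := by
        intro p hp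
        have hp2 := cell_sub hδ.le hk hp
        have hpj : 2 ^ j < p := by
          have : 2 ^ j ≤ 2 ^ i := Nat.pow_le_pow_right (by norm_num) hi.1
          omega
        have hpj' : 2 ^ (j - 1) < p := by
          have : 2 ^ (j - 1) ≤ 2 ^ j := Nat.pow_le_pow_right (by norm_num) (by omega)
          omega
        simp only [hf]
        split_ifs with h
        · have hU : E.U j p := ⟨h, hpj'⟩
          have hgu : E.gu j p ≤ E.w i / (((cell E.δ i k).filter E.isU).card : ℝ) := by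
            unfold Env.gu
            rw [if_pos hU, if_neg (by omega), sc_eq hp2.1 hp2.2, kx_eq E hk hp]
            split_ifs
            · positivity
            · exact le_refl _
          apply mul_le_mul hgu _ (by positivity) (by positivity)
          apply Real.rpow_le_rpow_of_nonpos (by positivity) _ (by linarith)
          exact_mod_cast hp2.1.le
        · have hgu : E.gu j p = 0 := by
            unfold Env.gu
            rw [if_neg (fun hU => h hU.1)]
          rw [hgu, zero_mul]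
      refine (sum_le_sum e2).trans ?_
      rw [← sum_filter, sum_const, nsmul_eq_mul]
      by_cases hz : ((((cell E.δ i k).filter E.isU).card : ℕ) : ℝ) = 0
      · rw [hz, zero_mul]; positivity
      · apply le_of_eq
        field_simp
    refine (sum_le_sum e1).trans ?_
    rw [sum_const, nsmul_eq_mul, card_range]
    have e3 := nc_le (δ := E.δ) hδ.le i
    calc (nc E.δ i : ℝ) * (E.w i * ((2 : ℝ) ^ i) ^ (-E.δ / 2)) ≤
        2 * (2 : ℝ) ^ ((1 / 2 + E.δ) * i) * (E.w i * ((2 : ℝ) ^ i) ^ (-E.δ / 2)) :=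
          mul_le_mul_of_nonneg_right e3 (by positivity)
      _ = 2 / (i : ℝ) ^ 40 * ((2 : ℝ) ^ ((1 / 2 + E.δ) * i) *
            (2 : ℝ) ^ (-(1 / 2 + E.δ / 2) * (i : ℝ)) * ((2 : ℝ) ^ i) ^ (-E.δ / 2)) := by
          unfold Env.w; ring
      _ = 2 / (i : ℝ) ^ 40 * 1 := by
          congr 1
          rw [← Real.rpow_natCast 2 i, ← Real.rpow_mul (by norm_num),
            ← Real.rpow_add (by norm_num), ← Real.rpow_add (by norm_num)]
          rw [show (1 / 2 + E.δ) * (i : ℝ) + -(1 / 2 + E.δ / 2) * (i : ℝ) +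
            (i : ℝ) * (-E.δ / 2) = 0 by ring, Real.rpow_zero]
      _ = _ := mul_one _
  have h5 : (1 / 2 : ℝ) / j + (1 / 2) / j = 1 / j := by ring
  linarith

/-- task GB -/
theorem gb : T_GB := by
  intro E hHC
  obtain ⟨J1, a1, h1⟩ := gb1 E
  obtain ⟨J5, a5, h5⟩ := gb5 E
  obtain ⟨J6, a6, h6⟩ := gb6 E
  obtain ⟨J7, a7, h7⟩ := gb7 E hHC
  obtain ⟨J8, a8, h8⟩ := gb8 E
  obtain ⟨J9, a9, h9⟩ := gb9 E
  refine ⟨J1 + J5 + J6 + J7 + J8 + J9, by omega, fun j hj => ⟨?_, gu_nonneg E j, gh_nonneg E j,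
    fun p hp => gu_ne E hp, ?_, ?_, ?_, ?_, ?_⟩⟩
  · exact h1 j (by omega)
  · exact h5 j (by omega)
  · exact h6 j (by omega)
  · exact h7 j (by omega)
  · exact h8 j (by omega)
  · exact h9 j (by omega)

end Pool.Agent.W683.MO
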