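import Pool.Agent.W683.MO.Basic

/-!
# MP_a187e6_nt: task GB, part 1
-/

set_option autoImplicit false

namespace Pool.Agent.W683.MO

open Finset Filter Topology
open scoped Classical
open Pool.Agent.W76.MO

theorem δ_half (E : Env) : E.δ ≤ 1 / 2 := by
  have := E.hδ'; have := E.hτ'; linarith

theorem card_bad (E : Env) {i : ℕ} (hi : E.i₁ ≤ i) :
    ((E.Bad i).card : ℝ) ≤ (2 : ℝ) ^ (3 * E.δ * i) := E.u_bad i hi

theorem bad_lt (E : Env) {i k : ℕ} (hk : k ∈ E.Bad i) : k < nc E.δ i := by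
  unfold Env.Bad at hk
  rw [mem_filter, mem_range] at hk
  exact hk.1

theorem not_bad (E : Env) {i k : ℕ} (hk : k < nc E.δ i) (hb : k ∉ E.Bad i) :
    E.cU * hh E.δ i / (i : ℝ) ^ 4 ≤ (((cell E.δ i k).filter E.isU).card : ℝ) := by
  unfold Env.Bad at hb
  rw [mem_filter, mem_range] at hb
  push Not at hb
  exact hb hk

/-- item 1 -/
theorem gb1 (E : Env) : ∃ J : ℕ, 1 ≤ J ∧ ∀ j : ℕ, J ≤ j →
    E.cU / 2 * 2 ^ (j - 1) / (j : ℝ) ^ 4 ≤ ((E.UB j).card : ℝ) := by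
  have hδ := E.hδ
  have hδt := E.hδ'
  have ht := E.hτ'
  have htp := E.hτ
  obtain ⟨J1, hJ1⟩ := large (1 / 2 - 2 * E.δ) 2 0 (by linarith)
  refine ⟨J1 + E.i₁ + 2, by omega, fun j hj => ?_⟩
  set i := j - 1 with hi
  have hji : j = i + 1 := by omega
  have hi1 : E.i₁ ≤ i := by omega
  have hh1 := hJ1 i (by omega)
  rw [pow_zero, mul_one] at hh1
  have hnc := le_nc (δ := E.δ) hδ.le (δ_half E) i
  have hb := card_bad E hi1
  have hb2 : ((E.Bad i).card : ℝ) ≤ nc E.δ i / 2 := by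
    have e1 : (2 : ℝ) ^ (3 * E.δ * i) * (2 : ℝ) ^ ((1 / 2 - 2 * E.δ) * i) =
        (2 : ℝ) ^ ((1 / 2 + E.δ) * i) := by
      rw [← Real.rpow_add (by norm_num)]; congr 1; ring
    have e2 : (2 : ℝ) ^ (3 * E.δ * i) * 2 ≤ (2 : ℝ) ^ ((1 / 2 + E.δ) * i) := by
      rw [← e1]
      exact mul_le_mul_of_nonneg_left hh1 (by positivity)
    linarith
  -- count
  have hcard : ((E.UB j).card : ℝ) = ∑ k ∈ range (nc E.δ i),
      (((cell E.δ i k).filter E.isU).card : ℝ) := by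
    have h0 := sum_block hδ.le i (fun n => if E.isU n then (1 : ℝ) else 0)
    unfold Env.UB
    have e1 : (((Ioc (2 ^ (j - 1)) (2 ^ j)).filter E.isU).card : ℝ) =
        ∑ n ∈ Ioc (2 ^ i) (2 ^ (i + 1)), (if E.isU n then (1 : ℝ) else 0) := by
      rw [← hi, hji, Finset.card_filter]
      push_cast
      rfl
    rw [e1, h0]
    apply sum_congr rfl
    intro k _
    rw [Finset.card_filter]
    push_cast
    rfl
  have hipos : (1 : ℝ) ≤ (i : ℝ) := by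
    have := E.hi₁
    exact_mod_cast (by omega : 1 ≤ i)
  have hh0 := hh_posR E.δ i
  have hcU := E.hcU
  have hsub : E.Bad i ⊆ range (nc E.δ i) := fun k hk => mem_range.2 (bad_lt E hk)
  have h2 : ((nc E.δ i : ℝ) - (E.Bad i).card) * (E.cU * hh E.δ i / (i : ℝ) ^ 4) ≤
      ∑ k ∈ range (nc E.δ i), (((cell E.δ i k).filter E.isU).card : ℝ) := by
    have e1 : ∑ k ∈ range (nc E.δ i) \ E.Bad i, (E.cU * hh E.δ i / (i : ℝ) ^ 4) ≤
        ∑ k ∈ range (nc E.δ i) \ E.Bad i, (((cell E.δ i k).filter E.isU).card : ℝ) := by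
      apply sum_le_sum
      intro k hk
      rw [Finset.mem_sdiff, mem_range] at hk
      exact not_bad E hk.1 hk.2
    have e2 : ∑ k ∈ range (nc E.δ i) \ E.Bad i, (((cell E.δ i k).filter E.isU).card : ℝ) ≤
        ∑ k ∈ range (nc E.δ i), (((cell E.δ i k).filter E.isU).card : ℝ) :=
      sum_le_sum_of_subset_of_nonneg Finset.sdiff_subset (fun _ _ _ => Nat.cast_nonneg _)
    refine le_trans (le_of_eq ?_) (e1.trans e2)
    rw [sum_const, nsmul_eq_mul]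
    congr 1
    have e3 := Finset.card_sdiff_add_card_eq_card hsub
    rw [card_range] at e3
    have e4 : (((range (nc E.δ i) \ E.Bad i).card : ℕ) : ℝ) + (E.Bad i).card = nc E.δ i := by
      exact_mod_cast e3
    linarith
  rw [hcard]
  refine le_trans ?_ h2
  have h3 : (nc E.δ i : ℝ) / 2 * (E.cU * hh E.δ i / (i : ℝ) ^ 4) ≤
      ((nc E.δ i : ℝ) - (E.Bad i).card) * (E.cU * hh E.δ i / (i : ℝ) ^ 4) := by
    apply mul_le_mul_of_nonneg_right _ (by positivity)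
    linarith
  refine le_trans ?_ h3
  have h4 := nc_mulR hδ.le i
  have h5 : (nc E.δ i : ℝ) / 2 * (E.cU * hh E.δ i / (i : ℝ) ^ 4) =
      E.cU / 2 * 2 ^ i / (i : ℝ) ^ 4 := by
    rw [← h4]; ring
  rw [h5]
  apply div_le_div_of_nonneg_left (by positivity) (by positivity)
  apply pow_le_pow_left₀ (by positivity)
  rw [hji]; push_cast; linarith

theorem w_pos (E : Env) {i : ℕ} (hi : 1 ≤ i) : 0 < E.w i := by
  unfold Env.w
  have : (0 : ℝ) < i := by exact_mod_cast hi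
  positivity

theorem w_nonneg (E : Env) (i : ℕ) : 0 ≤ E.w i := by
  unfold Env.w
  positivity

theorem gu_nonneg (E : Env) (j p : ℕ) : 0 ≤ E.gu j p := by
  unfold Env.gu
  split_ifs
  · positivity
  · exact le_refl _
  · exact div_nonneg (w_nonneg E _) (by positivity)
  · exact le_refl _

theorem gh_nonneg (E : Env) (j q : ℕ) : 0 ≤ E.gh j q := by
  unfold Env.gh
  apply sum_nonneg; intro i _
  apply sum_nonneg; intro k _
  apply sum_nonneg; intro n _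
  have := w_nonneg E i
  positivity

theorem gu_ne (E : Env) {j p : ℕ} (h : E.gu j p ≠ 0) : E.U j p := by
  by_contra h0
  apply h
  unfold Env.gu
  rw [if_neg h0]

/-- properties of hosts -/
theorem host_spec (E : Env) {j i k n : ℕ} (hn : n ∈ E.Host j i k) :
    n ∈ cell E.δ i k ∧ (2 : ℝ) ^ ((1 / 2 + E.τ) * i) ≤ W76.MO.lp n ∧ W76.MO.lp n < n ∧
    Squarefree n ∧ Rough ((2 : ℝ) ^ (E.τ * i)) n ∧ ¬ E.U j (W76.MO.lp n) ∧
    (∀ p : ℕ, p.Prime → p ∣ n / W76.MO.lp n → ¬ E.U j p ∧ ¬ E.H j p) ∧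
    (W76.MO.lp n).Prime ∧ W76.MO.lp n ∣ n := by
  unfold Env.Host at hn
  rw [mem_filter] at hn
  obtain ⟨h1, h2, h3, h4, h5, h6, h7⟩ := hn
  have hpos : 0 < W76.MO.lp n := by
    have : (0 : ℝ) < W76.MO.lp n := lt_of_lt_of_le (by positivity) h2
    exact_mod_cast this
  have hm := lp_mem hpos
  rw [Nat.mem_primeFactors] at hm
  exact ⟨h1, h2, h3, h4, h5, h6, h7, hm.1, hm.2.1⟩

theorem host_H (E : Env) {j i k n : ℕ} (hji : j ≤ i) (hk : k ∈ E.Bad i)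
    (hn : n ∈ E.Host j i k) : E.H j (W76.MO.lp n) := by
  obtain ⟨h1, h2, -, -, -, -, -, h8, h9⟩ := host_spec E hn
  exact ⟨h8, i, hji, k, hk, n, h1, h9, h2⟩

/-- the contribution of a host is at least 1 -/
theorem term_ge (E : Env) : ∃ J : ℕ, 1 ≤ J ∧ ∀ j : ℕ, J ≤ j → ∀ i : ℕ, j ≤ i →
    ∀ k ∈ E.Bad i, ∀ n ∈ E.Host j i k,
      1 ≤ W76.MO.lp n * (E.w i / ((E.Host j i k).card : ℝ) * ((n : ℝ) / W76.MO.lp n)) := by
  have hδ := E.hδ
  obtain ⟨J1, hJ1⟩ := large (E.δ / 2) 1 40 (by linarith)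
  refine ⟨J1 + 1, by omega, fun j hj i hij k hk n hn => ?_⟩
  obtain ⟨h1, h2, -, -, -, -, -, h8, h9⟩ := host_spec E hn
  have hq : (0 : ℝ) < W76.MO.lp n := by exact_mod_cast h8.pos
  have hc : 0 < (E.Host j i k).card := card_pos.2 ⟨n, hn⟩
  have hcR : (0 : ℝ) < (E.Host j i k).card := by exact_mod_cast hc
  have hcle : ((E.Host j i k).card : ℝ) ≤ hh E.δ i := by
    have e1 : (E.Host j i k).card ≤ (cell E.δ i k).card := card_le_card (filter_subset _ _)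
    rw [card_cell] at e1
    exact_mod_cast e1
  have hn2 := (cell_sub hδ.le (bad_lt E hk) h1).1
  have hn2R : (2 : ℝ) ^ i ≤ n := by exact_mod_cast hn2.le
  have hh1 := hh_le (δ_half E) i
  have hipos : (0 : ℝ) < i := by exact_mod_cast (by omega : 0 < i)
  have e0 : W76.MO.lp n * (E.w i / ((E.Host j i k).card : ℝ) * ((n : ℝ) / W76.MO.lp n)) =
      E.w i * n / ((E.Host j i k).card : ℝ) := by
    field_simp
  rw [e0, le_div_iff₀ hcR, one_mul]
  refine hcle.trans (hh1.trans ?_)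
  have e1 : E.w i * (2 : ℝ) ^ i ≤ E.w i * n := mul_le_mul_of_nonneg_left hn2R (w_nonneg E i)
  refine le_trans ?_ e1
  unfold Env.w
  rw [div_mul_eq_mul_div, le_div_iff₀ (by positivity)]
  have e2 := hJ1 i (by omega)
  rw [one_mul] at e2
  have e3 : (2 : ℝ) ^ (-(1 / 2 + E.δ / 2) * (i : ℝ)) * (2 : ℝ) ^ i =
      (2 : ℝ) ^ ((1 / 2 - E.δ) * i) * (2 : ℝ) ^ (E.δ / 2 * i) := by
    rw [← Real.rpow_natCast 2 i, ← Real.rpow_add (by norm_num), ← Real.rpow_add (by norm_num)]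
    congr 1; ring
  rw [e3]
  exact mul_le_mul_of_nonneg_left e2 (by positivity)

/-- a nonzero term of `gh` -/
theorem gh_ne (E : Env) {j q : ℕ} (h : E.gh j q ≠ 0) : ∃ i : ℕ, j ≤ i ∧
    i < 2 * Nat.log 2 q + 3 ∧ ∃ k ∈ E.Bad i, ∃ n ∈ E.Host j i k, W76.MO.lp n = q ∧
      E.w i / ((E.Host j i k).card : ℝ) * ((n : ℝ) / q) ≤ E.gh j q := by
  unfold Env.gh at h ⊢
  obtain ⟨i, hi, h1⟩ := exists_ne_zero_of_sum_ne_zero h
  obtain ⟨k, hk, h2⟩ := exists_ne_zero_of_sum_ne_zero h1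
  obtain ⟨n, hn, h3⟩ := exists_ne_zero_of_sum_ne_zero h2
  rw [mem_filter, mem_range] at hi
  rw [mem_filter] at hn
  refine ⟨i, hi.2, hi.1, k, hk, n, hn.1, hn.2, ?_⟩
  have hnn : ∀ i k n : ℕ, 0 ≤ E.w i / ((E.Host j i k).card : ℝ) * ((n : ℝ) / q) := by
    intro i k n
    have := w_nonneg E i
    positivity
  have s1 : E.w i / ((E.Host j i k).card : ℝ) * ((n : ℝ) / q) ≤
      ∑ n ∈ (E.Host j i k).filter (fun n => W76.MO.lp n = q),
        E.w i / ((E.Host j i k).card : ℝ) * ((n : ℝ) / q) :=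
    single_le_sum (f := fun n : ℕ => E.w i / ((E.Host j i k).card : ℝ) * ((n : ℝ) / q))
      (fun n _ => hnn i k n) (mem_filter.2 hn)
  have s2 := single_le_sum (f := fun k : ℕ => ∑ n ∈ (E.Host j i k).filter
      (fun n => W76.MO.lp n = q), E.w i / ((E.Host j i k).card : ℝ) * ((n : ℝ) / q))
      (fun k _ => sum_nonneg (fun n _ => hnn i k n)) hk
  have s3 := single_le_sum (f := fun i : ℕ => ∑ k ∈ E.Bad i, ∑ n ∈ (E.Host j i k).filter
      (fun n => W76.MO.lp n = q), E.w i / ((E.Host j i k).card : ℝ) * ((n : ℝ) / q))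
      (fun i _ => sum_nonneg (fun k _ => sum_nonneg (fun n _ => hnn i k n)))
      (mem_filter.2 ⟨mem_range.2 hi.1, hi.2⟩ :
        i ∈ (range (2 * Nat.log 2 q + 3)).filter (fun i => j ≤ i))
  exact s1.trans (s2.trans s3)

/-- item 5 -/
theorem gb5 (E : Env) : ∃ J : ℕ, 1 ≤ J ∧ ∀ j : ℕ, J ≤ j → ∀ q : ℕ, E.gh j q ≠ 0 →
    E.H j q ∧ ¬ E.U j q ∧ 1 ≤ q * E.gh j q := by
  obtain ⟨J, hJ1, hJ⟩ := term_ge E
  refine ⟨J, hJ1, fun j hj q hq => ?_⟩
  obtain ⟨i, hji, -, k, hk, n, hn, hl, hle⟩ := gh_ne E hq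
  have hs := host_spec E hn
  refine ⟨?_, ?_, ?_⟩
  · rw [← hl]; exact host_H E hji hk hn
  · rw [← hl]; exact hs.2.2.2.2.2.1
  · have h1 := hJ j hj i hji k hk n hn
    rw [hl] at h1
    refine h1.trans ?_
    exact mul_le_mul_of_nonneg_left hle (by positivity)

end Pool.Agent.W683.MO
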