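import Pool.Agent.W683.MO.GB1

/-!
# MP_a187e6_nt: task GB, part 2 (items 6, 7)
-/

set_option autoImplicit false

namespace Pool.Agent.W683.MO

open Finset Filter Topology
open scoped Classical
open Pool.Agent.W76.MO

theorem sc_spec {p : ℕ} (hp : 2 ≤ p) : 2 ^ Env.sc p < p ∧ p ≤ 2 ^ (Env.sc p + 1) := by
  unfold Env.sc
  have h1 := Nat.pow_log_le_self 2 (x := p - 1) (by omega)
  have h2 := Nat.lt_pow_succ_log_self (b := 2) (by norm_num) (p - 1)
  constructor
  · omega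
  · omega

theorem exp_id1 (E : Env) (i : ℕ) :
    (2 : ℝ) ^ (-(1 / 2 + E.δ / 2) * (i : ℝ)) * (2 : ℝ) ^ i =
      (2 : ℝ) ^ ((1 / 2 - E.δ) * i) * (2 : ℝ) ^ (E.δ / 2 * i) := by
  rw [← Real.rpow_natCast 2 i, ← Real.rpow_add (by norm_num), ← Real.rpow_add (by norm_num)]
  congr 1; ring

/-- `w_i 2^i / h_i ≤ 2 * 2^(δ i/2) / i^40` -/
theorem w_mul_le (E : Env) (i : ℕ) :
    E.w i * (2 : ℝ) ^ i ≤ 2 * hh E.δ i * ((2 : ℝ) ^ (E.δ / 2 * i) / (i : ℝ) ^ 40) := by
  unfold Env.w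
  have h1 := (lt_hh (δ := E.δ) i).le
  have h2 := exp_id1 E i
  have h3 : (2 : ℝ) ^ (-(1 / 2 + E.δ / 2) * (i : ℝ)) / (i : ℝ) ^ 40 * (2 : ℝ) ^ i =
      (2 : ℝ) ^ ((1 / 2 - E.δ) * i) * ((2 : ℝ) ^ (E.δ / 2 * i) / (i : ℝ) ^ 40) := by
    rw [div_mul_eq_mul_div, h2, mul_div_assoc]
  rw [h3]
  exact mul_le_mul_of_nonneg_right h1 (by positivity)

/-- item 6 -/
theorem gb6 (E : Env) : ∃ J : ℕ, 1 ≤ J ∧ ∀ j : ℕ, J ≤ j → ∀ p : ℕ, E.U j p →
    j - 1 ≤ Env.sc p ∧
    1 + 2 * (p * E.gu j p) ≤ (2 : ℝ) ^ (E.δ / 2 * Env.sc p) / (Env.sc p : ℝ) ^ 35 := by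
  have hδ := E.hδ
  have hcU := E.hcU
  obtain ⟨J0, hJ0, hUB⟩ := gb1 E
  obtain ⟨J1, hJ1⟩ := large (E.δ / 2) (2 + 2048 / E.cU) 40 (by linarith)
  obtain ⟨J2, hJ2⟩ := exists_nat_ge (16 / E.cU)
  refine ⟨J0 + J1 + J2 + 3, by omega, fun j hj p hp => ?_⟩
  have hU := hp
  obtain ⟨hisU, hpj⟩ := hp
  have hpr := E.u_prime p hisU
  have h2 := hpr.two_le
  obtain ⟨hs1, hs2⟩ := sc_spec h2
  set i := Env.sc p with hi
  have hji : j - 1 ≤ i := by
    by_contra hlt
    push Not at hlt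
    have : 2 ^ (i + 1) ≤ 2 ^ (j - 1) := Nat.pow_le_pow_right (by norm_num) (by omega)
    omega
  refine ⟨hji, ?_⟩
  have hi1 : J1 ≤ i := by omega
  have hi2 : J2 ≤ i := by omega
  have hipos : (1 : ℝ) ≤ i := by exact_mod_cast (by omega : 1 ≤ i)
  have hbig := hJ1 i hi1
  have hpw : (i : ℝ) ^ 35 ≤ (i : ℝ) ^ 40 := pow_le_pow_right₀ hipos (by norm_num)
  have hcc : 0 < 2048 / E.cU := by positivity
  have hbig2 : 2 * (i : ℝ) ^ 35 ≤ (2 : ℝ) ^ (E.δ / 2 * i) := by
    have : 2 * (i : ℝ) ^ 35 ≤ (2 + 2048 / E.cU) * (i : ℝ) ^ 40 := by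
      have e0 : (0 : ℝ) ≤ (i : ℝ) ^ 40 := by positivity
      nlinarith
    linarith
  have hbig3 : 2 ≤ (2 : ℝ) ^ (E.δ / 2 * i) / (i : ℝ) ^ 35 := by
    rw [le_div_iff₀ (by positivity)]; exact hbig2
  by_cases hc : p ≤ 2 ^ j
  · -- special block
    have hij : i = j - 1 := by
      have : 2 ^ i < 2 ^ j := by omega
      have := (Nat.pow_lt_pow_iff_right (a := 2) (by norm_num)).1 this
      omega
    have hgu : E.gu j p = 8 * j / ((E.UB j).card : ℝ) := by
      unfold Env.gu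
      rw [if_pos hU, if_pos hc]
    have hub := hUB j (by omega)
    have hjpos : (0 : ℝ) < j := by exact_mod_cast (by omega : 0 < j)
    have hubpos : (0 : ℝ) < E.cU / 2 * 2 ^ (j - 1) / (j : ℝ) ^ 4 := by positivity
    have hcpos : (0 : ℝ) < ((E.UB j).card : ℝ) := lt_of_lt_of_le hubpos hub
    have hpR : (p : ℝ) ≤ 2 ^ j := by exact_mod_cast hc
    have e1 : (p : ℝ) * E.gu j p ≤ 32 * (j : ℝ) ^ 5 / E.cU := by
      rw [hgu]
      have e2 : (8 * (j : ℝ)) / ((E.UB j).card : ℝ) ≤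
          8 * j / (E.cU / 2 * 2 ^ (j - 1) / (j : ℝ) ^ 4) :=
        div_le_div_of_nonneg_left (by positivity) hubpos hub
      have e3 : (2 : ℝ) ^ j = 2 * 2 ^ (j - 1) := by
        rw [← pow_succ']; congr 1; omega
      calc (p : ℝ) * (8 * j / ((E.UB j).card : ℝ)) ≤
          2 ^ j * (8 * j / (E.cU / 2 * 2 ^ (j - 1) / (j : ℝ) ^ 4)) :=
            mul_le_mul hpR e2 (by positivity) (by positivity)
        _ = 32 * (j : ℝ) ^ 5 / E.cU := by
            rw [e3]; field_simp; ring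
    have e4 : (j : ℝ) ^ 5 ≤ 32 * (i : ℝ) ^ 5 := by
      have : (j : ℝ) ≤ 2 * i := by exact_mod_cast (by omega : j ≤ 2 * i)
      calc (j : ℝ) ^ 5 ≤ (2 * i) ^ 5 := pow_le_pow_left₀ (by positivity) this 5
        _ = _ := by ring
    rw [le_div_iff₀ (by positivity)]
    refine le_trans ?_ hbig
    have e5 : (1 + 2 * ((p : ℝ) * E.gu j p)) ≤ 1 + 2048 / E.cU * (i : ℝ) ^ 5 := by
      have : 32 * (j : ℝ) ^ 5 / E.cU ≤ 1024 / E.cU * (i : ℝ) ^ 5 := by
        rw [div_mul_eq_mul_div]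
        apply div_le_div_of_nonneg_right _ hcU.le
        linarith
      have e6 : 2048 / E.cU * (i : ℝ) ^ 5 = 2 * (1024 / E.cU * (i : ℝ) ^ 5) := by ring
      linarith
    calc (1 + 2 * ((p : ℝ) * E.gu j p)) * (i : ℝ) ^ 35 ≤
        (1 + 2048 / E.cU * (i : ℝ) ^ 5) * (i : ℝ) ^ 35 :=
          mul_le_mul_of_nonneg_right e5 (by positivity)
      _ = (i : ℝ) ^ 35 + 2048 / E.cU * (i : ℝ) ^ 40 := by ring
      _ ≤ _ := by
          have e0 : (0 : ℝ) ≤ (i : ℝ) ^ 40 := by positivity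
          nlinarith
  · obtain ⟨hk1, hk2⟩ := mem_cell_kx E hs1 hs2
    by_cases hb : E.kx p ∈ E.Bad i
    · have hgu : E.gu j p = 0 := by
        unfold Env.gu
        rw [if_pos hU, if_neg hc, if_pos hb]
      rw [hgu]
      linarith
    · have hgu : E.gu j p = E.w i / (((cell E.δ i (E.kx p)).filter E.isU).card : ℝ) := by
        unfold Env.gu
        rw [if_pos hU, if_neg hc, if_neg hb]
      have hnb := not_bad E hk1 hb
      have hh0 := hh_posR E.δ i
      have hlow : (0 : ℝ) < E.cU * hh E.δ i / (i : ℝ) ^ 4 := by positivity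
      have hpR : (p : ℝ) ≤ 2 ^ (i + 1) := by exact_mod_cast hs2
      have hw := w_nonneg E i
      have e1 : (p : ℝ) * E.gu j p ≤ 4 / E.cU * ((2 : ℝ) ^ (E.δ / 2 * i) / (i : ℝ) ^ 36) := by
        rw [hgu]
        have e2 : E.w i / (((cell E.δ i (E.kx p)).filter E.isU).card : ℝ) ≤
            E.w i / (E.cU * hh E.δ i / (i : ℝ) ^ 4) :=
          div_le_div_of_nonneg_left hw hlow hnb
        calc (p : ℝ) * (E.w i / (((cell E.δ i (E.kx p)).filter E.isU).card : ℝ)) ≤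
            2 ^ (i + 1) * (E.w i / (E.cU * hh E.δ i / (i : ℝ) ^ 4)) :=
              mul_le_mul hpR e2 (by positivity) (by positivity)
          _ = (E.w i * 2 ^ i) * (2 * (i : ℝ) ^ 4 / (E.cU * hh E.δ i)) := by
              rw [pow_succ]; field_simp
          _ ≤ (2 * hh E.δ i * ((2 : ℝ) ^ (E.δ / 2 * i) / (i : ℝ) ^ 40)) *
                (2 * (i : ℝ) ^ 4 / (E.cU * hh E.δ i)) :=
              mul_le_mul_of_nonneg_right (w_mul_le E i) (by positivity)
          _ = _ := by field_simp; ring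
      have e3 : 4 / E.cU * ((2 : ℝ) ^ (E.δ / 2 * i) / (i : ℝ) ^ 36) =
          (4 / E.cU / i) * ((2 : ℝ) ^ (E.δ / 2 * i) / (i : ℝ) ^ 35) := by
        field_simp
      have e4 : 4 / E.cU / i ≤ 1 / 4 := by
        have : 16 / E.cU ≤ i := hJ2.trans (by exact_mod_cast hi2)
        rw [div_le_iff₀ (by positivity)]
        have e5 : 16 / E.cU = 4 * (4 / E.cU) := by ring
        linarith
      have e6 : (0 : ℝ) < (2 : ℝ) ^ (E.δ / 2 * i) / (i : ℝ) ^ 35 := by positivity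
      rw [e3] at e1
      have e7 : 4 / E.cU / i * ((2 : ℝ) ^ (E.δ / 2 * i) / (i : ℝ) ^ 35) ≤
          1 / 4 * ((2 : ℝ) ^ (E.δ / 2 * i) / (i : ℝ) ^ 35) :=
        mul_le_mul_of_nonneg_right e4 e6.le
      linarith

/-- the contribution of a host is at most `2^(δ i/2)` -/
theorem term_le (E : Env) (hHC : E.HCount) : ∃ J : ℕ, 1 ≤ J ∧ ∀ j : ℕ, J ≤ j → ∀ i : ℕ, j ≤ i →
    ∀ k ∈ E.Bad i, ∀ n ∈ E.Host j i k,
      E.w i / ((E.Host j i k).card : ℝ) * n ≤ (2 : ℝ) ^ (E.δ / 2 * i) := by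
  obtain ⟨J0, hJ0⟩ := hHC
  have hcH := E.hcH
  have hδ := E.hδ
  obtain ⟨J2, hJ2⟩ := exists_nat_ge (8 / E.cH)
  refine ⟨J0 + J2 + 1, by omega, fun j hj i hij k hk n hn => ?_⟩
  have hs := host_spec E hn
  have hcard := hJ0 j (by omega) i hij k hk
  have hn2 := (cell_sub hδ.le (bad_lt E hk) hs.1).2
  have hnR : (n : ℝ) ≤ 2 ^ (i + 1) := by exact_mod_cast hn2
  have hipos : (1 : ℝ) ≤ i := by exact_mod_cast (by omega : 1 ≤ i)
  have hh0 := hh_posR E.δ i
  have hlow : (0 : ℝ) < E.cH / 2 * hh E.δ i / i := by positivity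
  have hw := w_nonneg E i
  have e2 : E.w i / ((E.Host j i k).card : ℝ) ≤ E.w i / (E.cH / 2 * hh E.δ i / i) :=
    div_le_div_of_nonneg_left hw hlow hcard
  calc E.w i / ((E.Host j i k).card : ℝ) * n ≤
      E.w i / (E.cH / 2 * hh E.δ i / i) * 2 ^ (i + 1) :=
        mul_le_mul e2 hnR (by positivity) (by positivity)
    _ = (E.w i * 2 ^ i) * (4 * (i : ℝ) / (E.cH * hh E.δ i)) := by
        rw [pow_succ]; field_simp; ring
    _ ≤ (2 * hh E.δ i * ((2 : ℝ) ^ (E.δ / 2 * i) / (i : ℝ) ^ 40)) *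
          (4 * (i : ℝ) / (E.cH * hh E.δ i)) :=
        mul_le_mul_of_nonneg_right (w_mul_le E i) (by positivity)
    _ = (8 / E.cH / (i : ℝ) ^ 39) * (2 : ℝ) ^ (E.δ / 2 * i) := by field_simp; ring
    _ ≤ 1 * (2 : ℝ) ^ (E.δ / 2 * i) := by
        apply mul_le_mul_of_nonneg_right _ (by positivity)
        rw [div_le_iff₀ (by positivity), one_mul]
        have e3 : 8 / E.cH ≤ i := hJ2.trans (by exact_mod_cast (by omega : J2 ≤ i))
        exact e3.trans (le_self_pow₀ hipos (by norm_num))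
    _ = _ := one_mul _

/-- at most one host of a cell has the largest prime factor `q` -/
theorem host_unique (E : Env) {j i k q n n' : ℕ}
    (hn : n ∈ E.Host j i k) (hn' : n' ∈ E.Host j i k) (hi : 1 ≤ i) (h : W76.MO.lp n = q)
    (h' : W76.MO.lp n' = q) : n = n' := by
  have hs := host_spec E hn
  have hs' := host_spec E hn'
  rw [h] at hs
  rw [h'] at hs'
  have hc := mem_cell.1 hs.1
  have hc' := mem_cell.1 hs'.1
  have h1 : (hh E.δ i : ℝ) < q := by
    refine lt_of_le_of_lt (hh_le (δ_half E) i) (lt_of_lt_of_le ?_ hs.2.1)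
    apply Real.rpow_lt_rpow_of_exponent_lt (by norm_num)
    have : (0 : ℝ) < i := by exact_mod_cast hi
    have := E.hδ; have := E.hτ
    nlinarith
  have h2 : hh E.δ i < q := by exact_mod_cast h1
  have e3 : (k + 1) * hh E.δ i = k * hh E.δ i + hh E.δ i := by ring
  rcases lt_trichotomy n n' with hlt | heq | hgt
  · exfalso
    have hd : q ∣ n' - n := Nat.dvd_sub hs'.2.2.2.2.2.2.2.2 hs.2.2.2.2.2.2.2.2
    have := Nat.le_of_dvd (by omega) hd
    omega
  · exact heq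
  · exfalso
    have hd : q ∣ n - n' := Nat.dvd_sub hs.2.2.2.2.2.2.2.2 hs'.2.2.2.2.2.2.2.2
    have := Nat.le_of_dvd (by omega) hd
    omega

/-- item 7 -/
theorem gb7 (E : Env) (hHC : E.HCount) : ∃ J : ℕ, 1 ≤ J ∧ ∀ j : ℕ, J ≤ j → ∀ q : ℕ,
    E.gh j q ≠ 0 → (2 : ℝ) ^ ((j : ℝ) / 2) ≤ q ∧
      1 + 2 * (q * E.gh j q) ≤ (q : ℝ) ^ (9 * E.δ) := by
  have hδ := E.hδ
  have hτ := E.hτ
  obtain ⟨J0, hJ0, hT⟩ := term_le E hHC
  obtain ⟨J1, hJ1⟩ := large (2 * E.δ) 11 1 (by linarith)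
  refine ⟨J0 + E.i₁ + 2 * J1 + 4, by omega, fun j hj q hq => ?_⟩
  obtain ⟨i, hji, -, k, hk, n, hn, hl, hle⟩ := gh_ne E hq
  have hs := host_spec E hn
  rw [hl] at hs
  have hqp := hs.2.2.2.2.2.2.2.1
  have hq0 : (0 : ℝ) < q := by exact_mod_cast hqp.pos
  have hj2 : (2 : ℝ) ^ ((j : ℝ) / 2) ≤ q := by
    refine le_trans ?_ hs.2.1
    apply Real.rpow_le_rpow_of_exponent_le (by norm_num)
    have e1 : (j : ℝ) ≤ i := by exact_mod_cast hji
    have e2 : (0 : ℝ) ≤ i := by positivity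
    nlinarith
  refine ⟨hj2, ?_⟩
  -- bound of q * gh
  have hb : (q : ℝ) * E.gh j q ≤ (2 * Nat.log 2 q + 3) * (q : ℝ) ^ (7 * E.δ) := by
    unfold Env.gh
    rw [mul_sum]
    have e1 : ∀ i ∈ (range (2 * Nat.log 2 q + 3)).filter (fun i => j ≤ i),
        (q : ℝ) * ∑ k ∈ E.Bad i, ∑ n ∈ (E.Host j i k).filter (fun n => W76.MO.lp n = q),
          E.w i / ((E.Host j i k).card : ℝ) * ((n : ℝ) / q) ≤ (q : ℝ) ^ (7 * E.δ) := by
      intro i hi
      rw [mem_filter, mem_range] at hi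
      have hi1 : E.i₁ ≤ i := by omega
      rw [mul_sum]
      by_cases hcase : (2 : ℝ) ^ ((i : ℝ) / 2) ≤ q
      · have e2 : ∀ k ∈ E.Bad i, (q : ℝ) * ∑ n ∈ (E.Host j i k).filter
            (fun n => W76.MO.lp n = q), E.w i / ((E.Host j i k).card : ℝ) * ((n : ℝ) / q) ≤
            (2 : ℝ) ^ (E.δ / 2 * i) := by
          intro k hk
          rw [mul_sum]
          by_cases hne : ((E.Host j i k).filter (fun n => W76.MO.lp n = q)).Nonempty
          · obtain ⟨n, hn⟩ := hne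
            have hn1 := mem_filter.1 hn
            have e3 : (E.Host j i k).filter (fun n => W76.MO.lp n = q) = {n} := by
              ext n'
              rw [mem_singleton]
              constructor
              · intro hn'
                rw [mem_filter] at hn'
                exact host_unique E hn'.1 hn1.1 (by omega) hn'.2 hn1.2
              · intro h; rw [h]; exact hn
            rw [e3, sum_singleton]
            have e4 := hT j (by omega) i hi.2 k hk n hn1.1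
            refine le_trans (le_of_eq ?_) e4
            field_simp
          · rw [not_nonempty_iff_eq_empty] at hne
            rw [hne, sum_empty]
            positivity
        refine (sum_le_sum e2).trans ?_
        rw [sum_const, nsmul_eq_mul]
        have e5 := card_bad E hi1
        calc ((E.Bad i).card : ℝ) * (2 : ℝ) ^ (E.δ / 2 * i) ≤
            (2 : ℝ) ^ (3 * E.δ * i) * (2 : ℝ) ^ (E.δ / 2 * i) :=
              mul_le_mul_of_nonneg_right e5 (by positivity)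
          _ = ((2 : ℝ) ^ ((i : ℝ) / 2)) ^ (7 * E.δ) := by
              rw [← Real.rpow_add (by norm_num), ← Real.rpow_mul (by norm_num)]
              congr 1; ring
          _ ≤ _ := Real.rpow_le_rpow (by positivity) hcase (by linarith)
      · have e2 : ∀ k ∈ E.Bad i, (q : ℝ) * ∑ n ∈ (E.Host j i k).filter
            (fun n => W76.MO.lp n = q), E.w i / ((E.Host j i k).card : ℝ) * ((n : ℝ) / q) =
            0 := by
          intro k hk
          have e3 : (E.Host j i k).filter (fun n => W76.MO.lp n = q) = ∅ := by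
            rw [filter_eq_empty_iff]
            intro n hn hl
            apply hcase
            have hs := host_spec E hn
            rw [hl] at hs
            refine le_trans ?_ hs.2.1
            apply Real.rpow_le_rpow_of_exponent_le (by norm_num)
            have : (0 : ℝ) ≤ i := by positivity
            nlinarith
          rw [e3, sum_empty, mul_zero]
        rw [sum_eq_zero e2]
        positivity
    refine (sum_le_sum e1).trans ?_
    rw [sum_const, nsmul_eq_mul]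
    apply mul_le_mul_of_nonneg_right _ (by positivity)
    have e6 : ((range (2 * Nat.log 2 q + 3)).filter (fun i => j ≤ i)).card ≤
        2 * Nat.log 2 q + 3 := (card_filter_le _ _).trans (by rw [card_range])
    exact_mod_cast e6
  set m := Nat.log 2 q with hm
  have hm1 : 2 ^ m ≤ q := Nat.pow_log_le_self 2 hqp.pos.ne'
  have hm2 : j / 2 ≤ m := by
    apply (Nat.le_log_iff_pow_le (by norm_num) hqp.pos.ne').2
    have : ((2 : ℝ) ^ (j / 2 : ℕ)) ≤ q := by
      refine le_trans ?_ hj2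
      rw [← Real.rpow_natCast]
      apply Real.rpow_le_rpow_of_exponent_le (by norm_num)
      exact Nat.cast_div_le
    exact_mod_cast this
  have hm3 : J1 ≤ m := by omega
  have hm4 : 1 ≤ m := by omega
  have h5 := hJ1 m hm3
  have h6 : (2 : ℝ) ^ (2 * E.δ * m) ≤ (q : ℝ) ^ (2 * E.δ) := by
    have e1 : (2 : ℝ) ^ (2 * E.δ * m) = ((2 : ℝ) ^ m) ^ (2 * E.δ) := by
      rw [← Real.rpow_natCast, ← Real.rpow_mul (by norm_num)]
      congr 1; ring
    rw [e1]
    apply Real.rpow_le_rpow (by positivity) _ (by linarith)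
    exact_mod_cast hm1
  have h7 : (q : ℝ) ^ (9 * E.δ) = (q : ℝ) ^ (7 * E.δ) * (q : ℝ) ^ (2 * E.δ) := by
    rw [← Real.rpow_add hq0]; congr 1; ring
  have h8 : 1 ≤ (q : ℝ) ^ (7 * E.δ) :=
    Real.one_le_rpow (by exact_mod_cast hqp.one_lt.le) (by linarith)
  have hmR : (1 : ℝ) ≤ m := by exact_mod_cast hm4
  rw [pow_one] at h5
  rw [h7]
  have h9 : (7 + 4 * (m : ℝ)) ≤ (q : ℝ) ^ (2 * E.δ) := by linarith
  have h10 : 1 + 2 * ((2 * (m : ℝ) + 3) * (q : ℝ) ^ (7 * E.δ)) ≤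
      (q : ℝ) ^ (7 * E.δ) * (7 + 4 * (m : ℝ)) := by nlinarith
  have h11 : (q : ℝ) ^ (7 * E.δ) * (7 + 4 * (m : ℝ)) ≤
      (q : ℝ) ^ (7 * E.δ) * (q : ℝ) ^ (2 * E.δ) :=
    mul_le_mul_of_nonneg_left h9 (by positivity)
  linarith

end Pool.Agent.W683.MO
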