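import Pool.Agent.W683.MO.SP1

/-!
# MP_a187e6_nt: task SP, part 2 (host primes, assembly)
-/

set_option autoImplicit false

namespace Pool.Agent.W683.MO

open Finset Filter Topology
open scoped Classical
open Pool.Agent.W76.MO

theorem card_mult (a h d : ℕ) (hd : 0 < d) :
    ((((Ioc a (a + h)).filter (fun n => d ∣ n)).card : ℕ) : ℝ) ≤ h / d + 1 := by
  have h1 : ((Ioc a (a + h)).filter (fun n => d ∣ n)).card ≤ (Ioc (a / d) ((a + h) / d)).card := by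
    apply card_le_card_of_injOn (fun n => n / d)
    · intro n hn
      rw [mem_coe, mem_filter, mem_Ioc] at hn
      obtain ⟨⟨h1, h2⟩, m, rfl⟩ := hn
      rw [mem_coe, mem_Ioc]
      simp only [Nat.mul_div_cancel_left m hd]
      constructor
      · rw [Nat.div_lt_iff_lt_mul hd]; linarith
      · rw [Nat.le_div_iff_mul_le hd]; linarith
    · intro n hn n' hn' he
      rw [mem_coe, mem_filter] at hn hn'
      obtain ⟨-, m, rfl⟩ := hn
      obtain ⟨-, m', rfl⟩ := hn'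
      simp only [Nat.mul_div_cancel_left _ hd] at he
      rw [he]
  rw [Nat.card_Ioc] at h1
  have h2 : (((Ioc a (a + h)).filter (fun n => d ∣ n)).card : ℝ) ≤
      (((a + h) / d - a / d : ℕ) : ℝ) := by exact_mod_cast h1
  refine h2.trans ?_
  have h3 : a / d ≤ (a + h) / d := Nat.div_le_div_right (by omega)
  rw [Nat.cast_sub h3]
  have h4 : (((a + h) / d : ℕ) : ℝ) ≤ ((a + h : ℕ) : ℝ) / d := Nat.cast_div_le
  have h5 : (a : ℝ) / d < ((a / d : ℕ) : ℝ) + 1 := by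
    have := Nat.lt_div_mul_add hd (a := a)
    rw [div_lt_iff₀ (by exact_mod_cast hd)]
    have h6 : (a : ℝ) < ((a / d * d + d : ℕ) : ℝ) := by exact_mod_cast this
    push_cast at h6 ⊢
    linarith
  push_cast at h4
  rw [add_div] at h4
  linarith

/-- (B), pointwise -/
theorem B_point (b : ℕ → ℝ) (hb : ∀ q, 0 ≤ b q) (Q : Finset ℕ) (hQ : ∀ q ∈ Q, q.Prime)
    (θ Z1 Z2 K y : ℝ) (hθ : 0 ≤ θ) (hbθ : ∀ q ∈ Q, 1 + b q ≤ (q : ℝ) ^ θ)
    (hy : ∀ q ∈ Q, (q : ℝ) ≤ y) (hZ1 : 1 ≤ Z1) (hZ2 : Z1 * y ≤ Z2) (n : ℕ) (hn : 1 ≤ n)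
    (hK : (n : ℝ) ^ θ ≤ K) :
    ∏ q ∈ Q.filter (fun q => q ∣ n), (1 + b q) ≤
      ∑ s ∈ Q.powerset.filter (fun s => ((∏ q ∈ s, q : ℕ) : ℝ) ≤ Z1),
        (∏ q ∈ s, b q) * (if (∏ q ∈ s, q) ∣ n then 1 else 0) +
      K * ∑ s ∈ Q.powerset.filter (fun s => Z1 < ((∏ q ∈ s, q : ℕ) : ℝ) ∧
          ((∏ q ∈ s, q : ℕ) : ℝ) ≤ Z2), (if (∏ q ∈ s, q) ∣ n then (1 : ℝ) else 0) := by
  have hK0 : 0 ≤ K := le_trans (by positivity) hK
  set Qn := Q.filter (fun q => q ∣ n) with hQn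
  have hdvd : ∀ s, s ⊆ Qn → (∏ q ∈ s, q) ∣ n := by
    intro s hs
    have h1 : s ⊆ n.primeFactors := by
      intro q hq
      have := hs hq
      rw [hQn, mem_filter] at this
      rw [Nat.mem_primeFactors]
      exact ⟨hQ q this.1, this.2, by omega⟩
    exact (prod_dvd_prod_of_subset _ _ _ h1).trans (Nat.prod_primeFactors_dvd n)
  have hsubQ : Qn ⊆ Q := filter_subset _ _
  have hb0 : ∀ s : Finset ℕ, 0 ≤ ∏ q ∈ s, b q := fun s => prod_nonneg (fun q _ => hb q)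
  have hn1 : 0 ≤ ∑ s ∈ Q.powerset.filter (fun s => ((∏ q ∈ s, q : ℕ) : ℝ) ≤ Z1),
        (∏ q ∈ s, b q) * (if (∏ q ∈ s, q) ∣ n then 1 else 0) := by
    apply sum_nonneg
    intro s _
    have := hb0 s
    split_ifs <;> simp [this]
  have hn2 : 0 ≤ ∑ s ∈ Q.powerset.filter (fun s => Z1 < ((∏ q ∈ s, q : ℕ) : ℝ) ∧
          ((∏ q ∈ s, q : ℕ) : ℝ) ≤ Z2), (if (∏ q ∈ s, q) ∣ n then (1 : ℝ) else 0) := by
    apply sum_nonneg
    intro s _
    split_ifs <;> simp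
  by_cases hc : ((∏ q ∈ Qn, q : ℕ) : ℝ) ≤ Z1
  · have e1 : ∏ q ∈ Qn, (1 + b q) ≤
        ∑ s ∈ Q.powerset.filter (fun s => ((∏ q ∈ s, q : ℕ) : ℝ) ≤ Z1),
        (∏ q ∈ s, b q) * (if (∏ q ∈ s, q) ∣ n then 1 else 0) := by
      rw [prod_one_add]
      have e2 : ∑ s ∈ Qn.powerset, ∏ q ∈ s, b q =
          ∑ s ∈ Qn.powerset, (∏ q ∈ s, b q) * (if (∏ q ∈ s, q) ∣ n then 1 else 0) := by
        apply sum_congr rfl
        intro s hs
        rw [mem_powerset] at hs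
        rw [if_pos (hdvd s hs), mul_one]
      rw [e2]
      apply sum_le_sum_of_subset_of_nonneg
      · intro s hs
        rw [mem_powerset] at hs
        rw [mem_filter, mem_powerset]
        refine ⟨hs.trans hsubQ, le_trans ?_ hc⟩
        have h3 : ∏ q ∈ s, q ∣ ∏ q ∈ Qn, q := prod_dvd_prod_of_subset _ _ _ hs
        have h4 : 0 < ∏ q ∈ Qn, q := by
          apply prod_pos
          intro q hq
          exact (hQ q (hsubQ hq)).pos
        exact_mod_cast Nat.le_of_dvd h4 h3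
      · intro s _ _
        have := hb0 s
        split_ifs <;> simp [this]
    have e3 := mul_nonneg hK0 hn2
    linarith
  · push Not at hc
    -- upper bound K
    have e1 : ∏ q ∈ Qn, (1 + b q) ≤ K := by
      have h1 : ∏ q ∈ Qn, (1 + b q) ≤ ∏ q ∈ Qn, (q : ℝ) ^ θ := by
        apply Finset.prod_le_prod
        · intro q _
          have := hb q
          linarith
        · intro q hq
          exact hbθ q (hsubQ hq)
      refine h1.trans (le_trans ?_ hK)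
      rw [Real.finsetProd_rpow _ _ (fun q _ => Nat.cast_nonneg q)]
      apply Real.rpow_le_rpow (prod_nonneg (fun q _ => Nat.cast_nonneg q)) _ hθ
      have h3 := Nat.le_of_dvd (by omega) (hdvd Qn (Subset.refl _))
      have h4 : ((∏ q ∈ Qn, q : ℕ) : ℝ) ≤ n := by exact_mod_cast h3
      push_cast at h4
      exact h4
    -- a divisor of the right size
    obtain ⟨s, hs, hmin⟩ := Finset.exists_min_image
      (Qn.powerset.filter (fun s => Z1 < ((∏ q ∈ s, q : ℕ) : ℝ))) (fun s => s.card)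
      ⟨Qn, by rw [mem_filter, mem_powerset]; exact ⟨Subset.refl _, hc⟩⟩
    rw [mem_filter, mem_powerset] at hs
    have hsne : s.Nonempty := by
      rw [nonempty_iff_ne_empty]
      intro h0
      rw [h0] at hs
      simp only [prod_empty, Nat.cast_one] at hs
      linarith [hs.2]
    obtain ⟨q, hq⟩ := hsne
    have hqQ : q ∈ Q := hsubQ (hs.1 hq)
    have h2 : ((∏ q ∈ s.erase q, q : ℕ) : ℝ) ≤ Z1 := by
      by_contra h3
      push Not at h3
      have h4 := hmin (s.erase q) (by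
        rw [mem_filter, mem_powerset]
        exact ⟨(erase_subset _ _).trans hs.1, h3⟩)
      rw [card_erase_of_mem hq] at h4
      have := card_pos.2 ⟨q, hq⟩
      omega
    have h5 : ((∏ q ∈ s, q : ℕ) : ℝ) ≤ Z2 := by
      rw [← mul_prod_erase s (fun q => q) hq]
      push_cast
      push_cast at h2
      have h6 := hy q hqQ
      have h7 : (0 : ℝ) ≤ q := Nat.cast_nonneg q
      have h8 : (0 : ℝ) ≤ ∏ x ∈ s.erase q, (x : ℝ) := prod_nonneg (fun q _ => Nat.cast_nonneg q)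
      nlinarith
    have e4 : (1 : ℝ) ≤ ∑ s ∈ Q.powerset.filter (fun s => Z1 < ((∏ q ∈ s, q : ℕ) : ℝ) ∧
          ((∏ q ∈ s, q : ℕ) : ℝ) ≤ Z2), (if (∏ q ∈ s, q) ∣ n then (1 : ℝ) else 0) := by
      have h9 := single_le_sum (f := fun s : Finset ℕ =>
        (if (∏ q ∈ s, q) ∣ n then (1 : ℝ) else 0))
        (s := Q.powerset.filter (fun s => Z1 < ((∏ q ∈ s, q : ℕ) : ℝ) ∧
          ((∏ q ∈ s, q : ℕ) : ℝ) ≤ Z2)) (fun s _ => by split_ifs <;> simp)
        (a := s) (by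
          rw [mem_filter, mem_powerset]
          exact ⟨hs.1.trans hsubQ, hs.2, h5⟩)
      simp only [if_pos (hdvd s hs.1)] at h9
      exact h9
    have e5 : K * 1 ≤ K * _ := mul_le_mul_of_nonneg_left e4 hK0
    linarith

theorem prod_one_add_le_exp (Q : Finset ℕ) (f : ℕ → ℝ) (hf : ∀ q, 0 ≤ f q) :
    ∏ q ∈ Q, (1 + f q) ≤ Real.exp (∑ q ∈ Q, f q) := by
  rw [Real.exp_sum]
  apply Finset.prod_le_prod
  · intro q _
    have := hf q
    linarith
  · intro q _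
    have := Real.add_one_le_exp (f q)
    linarith

/-- (B) -/
theorem B_bound (E : Env) (hG : E.GBounds) : ∃ J : ℕ, 1 ≤ J ∧ ∀ j : ℕ, J ≤ j → ∀ i : ℕ, j ≤ i →
    ∀ k : ℕ, k < nc E.δ i → ∑ n ∈ cell E.δ i k,
      ∏ p ∈ n.primeFactors.filter (fun p : ℕ => (p : ℝ) ≤ (2 : ℝ) ^ (1 / 20 * (i : ℝ))),
        (1 + 2 * (p * E.gh j p)) ≤ 5 * hh E.δ i := by
  have hδ := E.hδ
  have hδt := E.hδ'
  have hτ := E.hτ
  have hτ' := E.hτ'
  obtain ⟨J0, hJ0, hJ⟩ := hG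
  obtain ⟨J1, hJ1⟩ := large (E.τ / 16 - 9 * E.δ) 8 0 (by linarith)
  obtain ⟨J2, hJ2⟩ := large (1 / 5 - E.δ) 2 0 (by linarith)
  refine ⟨J0 + J1 + J2 + 3, by omega, fun j hj i hij k hk => ?_⟩
  obtain ⟨-, -, g3, -, g5, -, g7, g8, -⟩ := hJ j (by omega)
  have hjR : (3 : ℝ) ≤ j := by exact_mod_cast (by omega : 3 ≤ j)
  have hh0 := hh_posR E.δ i
  set b : ℕ → ℝ := fun q => 2 * (q * E.gh j q) with hb
  have hb0 : ∀ q, 0 ≤ b q := by
    intro q
    have := g3 q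
    simp only [hb]
    positivity
  set Q : Finset ℕ := (range (2 ^ i + 1)).filter (fun q : ℕ =>
    (q : ℝ) ≤ (2 : ℝ) ^ (1 / 20 * (i : ℝ)) ∧ E.gh j q ≠ 0) with hQ
  have hQp : ∀ q ∈ Q, q.Prime := by
    intro q hq
    rw [hQ, mem_filter] at hq
    exact (g5 q hq.2.2).1.1
  have hiR : (0 : ℝ) ≤ i := by positivity
  have e1 : ∀ n ∈ cell E.δ i k,
      ∏ p ∈ n.primeFactors.filter (fun p : ℕ => (p : ℝ) ≤ (2 : ℝ) ^ (1 / 20 * (i : ℝ))),
        (1 + 2 * (p * E.gh j p)) = ∏ q ∈ Q.filter (fun q => q ∣ n), (1 + b q) := by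
    intro n hn
    have hn2 := cell_sub hδ.le hk hn
    have e2 : Q.filter (fun q => q ∣ n) = (n.primeFactors.filter
        (fun p : ℕ => (p : ℝ) ≤ (2 : ℝ) ^ (1 / 20 * (i : ℝ)))).filter
          (fun p => E.gh j p ≠ 0) := by
      ext q
      simp only [hQ, mem_filter, Nat.mem_primeFactors, mem_range]
      constructor
      · rintro ⟨⟨h1, h2, h3⟩, h4⟩
        exact ⟨⟨⟨(g5 q h3).1.1, h4, by omega⟩, h2⟩, h3⟩
      · rintro ⟨⟨⟨h1, h2, h3⟩, h4⟩, h5⟩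
        refine ⟨⟨?_, h4, h5⟩, h2⟩
        have h6 : (q : ℝ) ≤ 2 ^ i := by
          refine h4.trans ?_
          rw [← Real.rpow_natCast]
          apply Real.rpow_le_rpow_of_exponent_le (by norm_num)
          linarith
        have h7 : q ≤ 2 ^ i := by exact_mod_cast h6
        omega
    rw [e2]
    symm
    apply prod_filter_of_ne
    intro p _ hne h0
    apply hne
    simp only [hb]
    rw [h0]; ring
  rw [sum_congr rfl e1]
  set Z1 : ℝ := (2 : ℝ) ^ (1 / 4 * (i : ℝ)) with hZ1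
  set Z2 : ℝ := (2 : ℝ) ^ (3 / 10 * (i : ℝ)) with hZ2
  set K : ℝ := 2 * (2 : ℝ) ^ (9 * E.δ * i) with hK
  set W1 := Q.powerset.filter (fun s => ((∏ q ∈ s, q : ℕ) : ℝ) ≤ Z1) with hW1
  set W2 := Q.powerset.filter (fun s => Z1 < ((∏ q ∈ s, q : ℕ) : ℝ) ∧
          ((∏ q ∈ s, q : ℕ) : ℝ) ≤ Z2) with hW2
  have hZ12 : Z1 ≤ Z2 := by
    apply Real.rpow_le_rpow_of_exponent_le (by norm_num)
    linarith
  have hpt : ∀ n ∈ cell E.δ i k, ∏ q ∈ Q.filter (fun q => q ∣ n), (1 + b q) ≤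
      ∑ s ∈ W1, (∏ q ∈ s, b q) * (if (∏ q ∈ s, q) ∣ n then 1 else 0) +
      K * ∑ s ∈ W2, (if (∏ q ∈ s, q) ∣ n then (1 : ℝ) else 0) := by
    intro n hn
    have hn2 := cell_sub hδ.le hk hn
    apply B_point b hb0 Q hQp (9 * E.δ) Z1 Z2 K ((2 : ℝ) ^ (1 / 20 * (i : ℝ))) (by linarith)
    · intro q hq
      rw [hQ, mem_filter] at hq
      exact (g7 q hq.2.2).2
    · intro q hq
      rw [hQ, mem_filter] at hq
      exact hq.2.1
    · exact Real.one_le_rpow (by norm_num) (by positivity)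
    · rw [hZ1, hZ2, ← Real.rpow_add (by norm_num)]
      apply le_of_eq
      congr 1; ring
    · omega
    · have hnR : (n : ℝ) ≤ (2 : ℝ) ^ ((i : ℝ) + 1) := by
        have : (n : ℝ) ≤ 2 ^ (i + 1) := by exact_mod_cast hn2.2
        rw [← Real.rpow_natCast] at this
        push_cast at this
        exact this
      calc (n : ℝ) ^ (9 * E.δ) ≤ ((2 : ℝ) ^ ((i : ℝ) + 1)) ^ (9 * E.δ) :=
            Real.rpow_le_rpow (by positivity) hnR (by linarith)
        _ = (2 : ℝ) ^ (((i : ℝ) + 1) * (9 * E.δ)) := by rw [← Real.rpow_mul (by norm_num)]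
        _ ≤ (2 : ℝ) ^ (1 + 9 * E.δ * i) := by
            apply Real.rpow_le_rpow_of_exponent_le (by norm_num)
            nlinarith
        _ = K := by rw [hK, Real.rpow_add (by norm_num), Real.rpow_one]
  refine (sum_le_sum hpt).trans ?_
  rw [sum_add_distrib, ← mul_sum, sum_comm (s := cell E.δ i k) (t := W1),
    sum_comm (s := cell E.δ i k) (t := W2)]
  -- counting
  have hZ2h : Z2 ≤ hh E.δ i := by
    have h1 := hJ2 i (by omega)
    rw [pow_zero, mul_one] at h1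
    have h2 := lt_hh (δ := E.δ) i
    have h3 : Z2 * (2 : ℝ) ^ ((1 / 5 - E.δ) * i) = (2 : ℝ) ^ ((1 / 2 - E.δ) * i) := by
      rw [hZ2, ← Real.rpow_add (by norm_num)]
      congr 1; ring
    have h4 : (0 : ℝ) < Z2 := by positivity
    nlinarith
  have hcount : ∀ s ∈ Q.powerset, ((∏ q ∈ s, q : ℕ) : ℝ) ≤ Z2 →
      ∑ n ∈ cell E.δ i k, (if (∏ q ∈ s, q) ∣ n then (1 : ℝ) else 0) ≤
        2 * hh E.δ i / ((∏ q ∈ s, q : ℕ) : ℝ) := by
    intro s hs hle
    rw [mem_powerset] at hs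
    have hpos : 0 < ∏ q ∈ s, q := prod_pos (fun q hq => (hQp q (hs hq)).pos)
    have hposR : (0 : ℝ) < ((∏ q ∈ s, q : ℕ) : ℝ) := by exact_mod_cast hpos
    rw [sum_boole]
    have h1 := card_mult (2 ^ i + k * hh E.δ i) (hh E.δ i) (∏ q ∈ s, q) hpos
    have h2 : cell E.δ i k = Ioc (2 ^ i + k * hh E.δ i) (2 ^ i + k * hh E.δ i + hh E.δ i) := by
      unfold cell
      congr 1; ring
    rw [h2]
    refine h1.trans ?_
    have h3 : (1 : ℝ) ≤ hh E.δ i / ((∏ q ∈ s, q : ℕ) : ℝ) := by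
      rw [le_div_iff₀ hposR, one_mul]
      exact hle.trans hZ2h
    have h4 : 2 * (hh E.δ i : ℝ) / ((∏ q ∈ s, q : ℕ) : ℝ) =
        hh E.δ i / ((∏ q ∈ s, q : ℕ) : ℝ) + hh E.δ i / ((∏ q ∈ s, q : ℕ) : ℝ) := by ring
    rw [h4]
    linarith
  have hexp1 : Real.exp (1 / j) ≤ 2 := by
    have h1 : (1 : ℝ) / j ≤ 1 / 3 := one_div_le_one_div_of_le (by norm_num) hjR
    calc Real.exp (1 / j) ≤ Real.exp (Real.log 2) := by
          apply Real.exp_le_exp.2
          have := Real.log_two_gt_d9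
          linarith
      _ = 2 := Real.exp_log (by norm_num)
  have hexp2 : Real.exp (2 / j) ≤ 2 := by
    have h1 : (2 : ℝ) / j ≤ 2 / 3 := div_le_div_of_nonneg_left (by norm_num) (by norm_num) hjR
    calc Real.exp (2 / j) ≤ Real.exp (Real.log 2) := by
          apply Real.exp_le_exp.2
          have := Real.log_two_gt_d9
          linarith
      _ = 2 := Real.exp_log (by norm_num)
  have g8Q := g8 Q
  have hqpos : ∀ q ∈ Q, (1 : ℝ) ≤ q := fun q hq => by exact_mod_cast (hQp q hq).one_lt.le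
  -- first sum
  have hS1 : ∑ s ∈ W1, ∑ n ∈ cell E.δ i k,
      (∏ q ∈ s, b q) * (if (∏ q ∈ s, q) ∣ n then (1 : ℝ) else 0) ≤ 4 * hh E.δ i := by
    have h1 : ∀ s ∈ W1, ∑ n ∈ cell E.δ i k,
        (∏ q ∈ s, b q) * (if (∏ q ∈ s, q) ∣ n then (1 : ℝ) else 0) ≤
        2 * hh E.δ i * ∏ q ∈ s, (b q / q) := by
      intro s hs
      rw [hW1, mem_filter] at hs
      rw [← mul_sum]
      have h2 := hcount s hs.1 (hs.2.trans hZ12)
      have h3 : 0 ≤ ∏ q ∈ s, b q := prod_nonneg (fun q _ => hb0 q)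
      refine (mul_le_mul_of_nonneg_left h2 h3).trans (le_of_eq ?_)
      rw [prod_div_distrib]
      push_cast
      ring
    refine (sum_le_sum h1).trans ?_
    rw [← mul_sum]
    have h4 : ∑ s ∈ W1, ∏ q ∈ s, (b q / q) ≤ ∑ s ∈ Q.powerset, ∏ q ∈ s, (b q / q) := by
      apply sum_le_sum_of_subset_of_nonneg (filter_subset _ _)
      intro s _ _
      exact prod_nonneg (fun q _ => div_nonneg (hb0 q) (Nat.cast_nonneg q))
    rw [← prod_one_add] at h4
    have h5 := prod_one_add_le_exp Q (fun q => b q / q)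
      (fun q => div_nonneg (hb0 q) (Nat.cast_nonneg q))
    have h6 : ∑ q ∈ Q, b q / q ≤ 2 / j := by
      have h7 : ∀ q ∈ Q, b q / q ≤ 2 * ((q * E.gh j q) * (q : ℝ) ^ (-1 + E.τ / 4)) := by
        intro q hq
        have h8 := hqpos q hq
        have h9 : (q : ℝ) ^ (-1 + E.τ / 4) ≥ (q : ℝ)⁻¹ := by
          rw [← Real.rpow_neg_one]
          apply Real.rpow_le_rpow_of_exponent_le h8
          linarith
        simp only [hb]
        have h10 : 0 ≤ (q : ℝ) * E.gh j q := mul_nonneg (by linarith) (g3 q)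
        rw [div_eq_mul_inv]
        nlinarith
      refine (sum_le_sum h7).trans ?_
      rw [← mul_sum]
      have h11 : (2 : ℝ) / j = 2 * (1 / j) := by ring
      rw [h11]
      exact mul_le_mul_of_nonneg_left g8Q (by norm_num)
    have h12 : ∑ s ∈ W1, ∏ q ∈ s, (b q / q) ≤ 2 :=
      h4.trans (h5.trans ((Real.exp_le_exp.2 h6).trans hexp2))
    nlinarith
  -- second sum
  have hS2 : K * ∑ s ∈ W2, ∑ n ∈ cell E.δ i k, (if (∏ q ∈ s, q) ∣ n then (1 : ℝ) else 0) ≤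
      hh E.δ i := by
    have h1 : ∀ s ∈ W2, ∑ n ∈ cell E.δ i k, (if (∏ q ∈ s, q) ∣ n then (1 : ℝ) else 0) ≤
        2 * hh E.δ i * (2 : ℝ) ^ (-(E.τ / 16) * (i : ℝ)) * ∏ q ∈ s, (q : ℝ) ^ (-1 + E.τ / 4) := by
      intro s hs
      rw [hW2, mem_filter] at hs
      obtain ⟨hs1, hs2, hs3⟩ := hs
      refine (hcount s hs1 hs3).trans ?_
      rw [Real.finsetProd_rpow _ _ (fun q _ => Nat.cast_nonneg q)]
      have hd : ((∏ q ∈ s, q : ℕ) : ℝ) = ∏ q ∈ s, (q : ℝ) := by push_cast; rfl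
      rw [hd]
      rw [hd] at hs2
      set d : ℝ := ∏ q ∈ s, (q : ℝ) with hdd
      have hZpos : (0 : ℝ) < Z1 := by positivity
      have hdpos : 0 < d := hZpos.trans hs2
      have h2 : d ^ (-1 + E.τ / 4) = d⁻¹ * d ^ (E.τ / 4) := by
        rw [Real.rpow_add hdpos, Real.rpow_neg_one]
      have h3 : (2 : ℝ) ^ (E.τ / 16 * (i : ℝ)) ≤ d ^ (E.τ / 4) := by
        have h4 : (2 : ℝ) ^ (E.τ / 16 * (i : ℝ)) = Z1 ^ (E.τ / 4) := by
          rw [hZ1, ← Real.rpow_mul (by norm_num)]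
          congr 1; ring
        rw [h4]
        exact Real.rpow_le_rpow hZpos.le hs2.le (by linarith)
      have h5 : (2 : ℝ) ^ (-(E.τ / 16) * (i : ℝ)) * (2 : ℝ) ^ (E.τ / 16 * (i : ℝ)) = 1 := by
        rw [← Real.rpow_add (by norm_num)]
        rw [show -(E.τ / 16) * (i : ℝ) + E.τ / 16 * (i : ℝ) = 0 by ring, Real.rpow_zero]
      rw [h2]
      have h6 : 2 * (hh E.δ i : ℝ) / d = 2 * hh E.δ i * d⁻¹ *
          ((2 : ℝ) ^ (-(E.τ / 16) * (i : ℝ)) * (2 : ℝ) ^ (E.τ / 16 * (i : ℝ))) := by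
        rw [h5]; ring
      rw [h6]
      have h7 : 2 * (hh E.δ i : ℝ) * d⁻¹ *
          ((2 : ℝ) ^ (-(E.τ / 16) * (i : ℝ)) * (2 : ℝ) ^ (E.τ / 16 * (i : ℝ))) ≤
          2 * (hh E.δ i : ℝ) * d⁻¹ *
          ((2 : ℝ) ^ (-(E.τ / 16) * (i : ℝ)) * d ^ (E.τ / 4)) := by
        apply mul_le_mul_of_nonneg_left _ (by positivity)
        exact mul_le_mul_of_nonneg_left h3 (by positivity)
      refine h7.trans (le_of_eq ?_)
      ring
    have h2 : ∑ s ∈ W2, ∑ n ∈ cell E.δ i k, (if (∏ q ∈ s, q) ∣ n then (1 : ℝ) else 0) ≤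
        2 * hh E.δ i * (2 : ℝ) ^ (-(E.τ / 16) * (i : ℝ)) * 2 := by
      refine (sum_le_sum h1).trans ?_
      rw [← mul_sum]
      apply mul_le_mul_of_nonneg_left _ (by positivity)
      have h4 : ∑ s ∈ W2, ∏ q ∈ s, (q : ℝ) ^ (-1 + E.τ / 4) ≤
          ∑ s ∈ Q.powerset, ∏ q ∈ s, (q : ℝ) ^ (-1 + E.τ / 4) := by
        apply sum_le_sum_of_subset_of_nonneg (filter_subset _ _)
        intro s _ _
        exact prod_nonneg (fun q _ => by positivity)
      rw [← prod_one_add] at h4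
      have h5 := prod_one_add_le_exp Q (fun q => (q : ℝ) ^ (-1 + E.τ / 4))
        (fun q => by positivity)
      have h6 : ∑ q ∈ Q, (q : ℝ) ^ (-1 + E.τ / 4) ≤ 1 / j := by
        refine le_trans (sum_le_sum ?_) g8Q
        intro q hq
        rw [hQ, mem_filter] at hq
        have h7 := (g5 q hq.2.2).2.2
        have h8 : 0 ≤ (q : ℝ) ^ (-1 + E.τ / 4) := by positivity
        nlinarith
      exact h4.trans (h5.trans ((Real.exp_le_exp.2 h6).trans hexp1))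
    have hbig := hJ1 i (by omega)
    rw [pow_zero, mul_one] at hbig
    have h3 : (2 : ℝ) ^ (9 * E.δ * i) * (2 : ℝ) ^ ((E.τ / 16 - 9 * E.δ) * i) *
        (2 : ℝ) ^ (-(E.τ / 16) * (i : ℝ)) = 1 := by
      rw [← Real.rpow_add (by norm_num), ← Real.rpow_add (by norm_num)]
      rw [show 9 * E.δ * i + (E.τ / 16 - 9 * E.δ) * i + -(E.τ / 16) * (i : ℝ) = 0 by ring,
        Real.rpow_zero]
    have hKpos : 0 ≤ K := by positivity
    refine (mul_le_mul_of_nonneg_left h2 hKpos).trans ?_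
    rw [hK]
    have h4 : 2 * (2 : ℝ) ^ (9 * E.δ * i) * (2 * hh E.δ i * (2 : ℝ) ^ (-(E.τ / 16) * (i : ℝ)) * 2)
        = hh E.δ i * ((2 : ℝ) ^ (9 * E.δ * i) * 8 * (2 : ℝ) ^ (-(E.τ / 16) * (i : ℝ))) := by ring
    rw [h4]
    have h5 : (2 : ℝ) ^ (9 * E.δ * i) * 8 * (2 : ℝ) ^ (-(E.τ / 16) * (i : ℝ)) ≤ 1 := by
      rw [← h3]
      apply mul_le_mul_of_nonneg_right _ (by positivity)
      exact mul_le_mul_of_nonneg_left hbig (by positivity)
    nlinarith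
  linarith

/-- task SP -/
theorem sp : T_SP := by
  intro E hG
  obtain ⟨JA, -, hA⟩ := A_bound E hG
  obtain ⟨JB, -, hB⟩ := B_bound E hG
  obtain ⟨J0, hJ0, hJ⟩ := hG
  refine ⟨JA + JB + J0 + 3, fun j hj i hij k hk => ?_⟩
  have hA' := hA j (by omega) i hij
  have hB' := hB j (by omega) i hij k hk
  have hδ := E.hδ
  have hiR : (3 : ℝ) ≤ i := by exact_mod_cast (by omega : 3 ≤ i)
  have hgu := gu_nonneg E j
  have hgh := gh_nonneg E j
  set a : ℝ := (2 : ℝ) ^ (E.δ / 2 * i) / (i : ℝ) ^ 50 with ha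
  have hapos : 0 < a := by positivity
  have h1 : ∀ n ∈ (cell E.δ i k).filter Squarefree,
      (1 / (n : ℝ)) * ∏ p ∈ n.primeFactors, (1 + 2 * (p * E.gs j i p)) ≤
        (1 / 2 ^ i * a) * ∏ p ∈ n.primeFactors.filter
          (fun p : ℕ => (p : ℝ) ≤ (2 : ℝ) ^ (1 / 20 * (i : ℝ))), (1 + 2 * (p * E.gh j p)) := by
    intro n hn
    rw [mem_filter] at hn
    have hn2 := cell_sub hδ.le hk hn.1
    have hnR : (2 : ℝ) ^ i ≤ n := by exact_mod_cast hn2.1.le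
    have h2 : ∏ p ∈ n.primeFactors, (1 + 2 * (p * E.gs j i p)) ≤
        (∏ p ∈ n.primeFactors.filter (fun p : ℕ => (p : ℝ) ≤ (2 : ℝ) ^ (3 / 5 * (i : ℝ))),
          (1 + 2 * (p * E.gu j p))) *
        ∏ p ∈ n.primeFactors.filter
          (fun p : ℕ => (p : ℝ) ≤ (2 : ℝ) ^ (1 / 20 * (i : ℝ))), (1 + 2 * (p * E.gh j p)) := by
      rw [prod_filter, prod_filter, ← prod_mul_distrib]
      apply Finset.prod_le_prod
      · intro p _
        unfold Env.gs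
        have h3 := hgu p
        have h4 := hgh p
        split_ifs <;> positivity
      · intro p _
        unfold Env.gs
        have h3 : 0 ≤ (p : ℝ) * E.gu j p := mul_nonneg (Nat.cast_nonneg p) (hgu p)
        have h4 : 0 ≤ (p : ℝ) * E.gh j p := mul_nonneg (Nat.cast_nonneg p) (hgh p)
        split_ifs
        · nlinarith [mul_nonneg h3 h4]
        · nlinarith
        · nlinarith
        · nlinarith
    have h5 := hA' n (by omega) hn2.2
    have hB0 : 0 ≤ ∏ p ∈ n.primeFactors.filter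
          (fun p : ℕ => (p : ℝ) ≤ (2 : ℝ) ^ (1 / 20 * (i : ℝ))), (1 + 2 * (p * E.gh j p)) := by
      apply prod_nonneg
      intro p _
      have := hgh p
      positivity
    have h6 : ∏ p ∈ n.primeFactors, (1 + 2 * (p * E.gs j i p)) ≤ a *
        ∏ p ∈ n.primeFactors.filter
          (fun p : ℕ => (p : ℝ) ≤ (2 : ℝ) ^ (1 / 20 * (i : ℝ))), (1 + 2 * (p * E.gh j p)) :=
      h2.trans (mul_le_mul_of_nonneg_right h5 hB0)
    have h7 : 1 / (n : ℝ) ≤ 1 / 2 ^ i := one_div_le_one_div_of_le (by positivity) hnR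
    calc (1 / (n : ℝ)) * ∏ p ∈ n.primeFactors, (1 + 2 * (p * E.gs j i p)) ≤
        (1 / (n : ℝ)) * (a * ∏ p ∈ n.primeFactors.filter
          (fun p : ℕ => (p : ℝ) ≤ (2 : ℝ) ^ (1 / 20 * (i : ℝ))), (1 + 2 * (p * E.gh j p))) :=
          mul_le_mul_of_nonneg_left h6 (by positivity)
      _ ≤ (1 / 2 ^ i) * (a * ∏ p ∈ n.primeFactors.filter
          (fun p : ℕ => (p : ℝ) ≤ (2 : ℝ) ^ (1 / 20 * (i : ℝ))), (1 + 2 * (p * E.gh j p))) :=
          mul_le_mul_of_nonneg_right h7 (mul_nonneg hapos.le hB0)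
      _ = _ := by ring
  refine (sum_le_sum h1).trans ?_
  rw [← mul_sum]
  have h2 : ∑ n ∈ (cell E.δ i k).filter Squarefree, ∏ p ∈ n.primeFactors.filter
          (fun p : ℕ => (p : ℝ) ≤ (2 : ℝ) ^ (1 / 20 * (i : ℝ))), (1 + 2 * (p * E.gh j p)) ≤
      5 * hh E.δ i := by
    refine le_trans ?_ hB'
    apply sum_le_sum_of_subset_of_nonneg (filter_subset _ _)
    intro n _ _
    apply prod_nonneg
    intro p _
    have := hgh p
    positivity
  have h3 : (1 / 2 ^ i * a) * ∑ n ∈ (cell E.δ i k).filter Squarefree, ∏ p ∈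
      n.primeFactors.filter (fun p : ℕ => (p : ℝ) ≤ (2 : ℝ) ^ (1 / 20 * (i : ℝ))),
        (1 + 2 * (p * E.gh j p)) ≤ (1 / 2 ^ i * a) * (5 * hh E.δ i) :=
    mul_le_mul_of_nonneg_left h2 (by positivity)
  refine h3.trans ?_
  have h4 := hh_le (δ_half E) i
  have h5 : (1 / 2 ^ i * a) * (5 * hh E.δ i) ≤
      (1 / 2 ^ i * a) * (5 * (2 : ℝ) ^ ((1 / 2 - E.δ) * i)) := by
    apply mul_le_mul_of_nonneg_left _ (by positivity)
    linarith
  refine h5.trans ?_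
  have h6 : (1 / 2 ^ i * a) * (5 * (2 : ℝ) ^ ((1 / 2 - E.δ) * i)) = 5 / (i : ℝ) ^ 10 * E.w i := by
    unfold Env.w
    have e1 : (2 : ℝ) ^ (-(1 / 2 + E.δ / 2) * (i : ℝ)) * (2 : ℝ) ^ i =
      (2 : ℝ) ^ ((1 / 2 - E.δ) * i) * (2 : ℝ) ^ (E.δ / 2 * i) := exp_id1 E i
    rw [ha]
    have e2 : (1 / 2 ^ i * ((2 : ℝ) ^ (E.δ / 2 * i) / (i : ℝ) ^ 50)) *
        (5 * (2 : ℝ) ^ ((1 / 2 - E.δ) * i)) = 5 / (i : ℝ) ^ 50 *
        (((2 : ℝ) ^ ((1 / 2 - E.δ) * i) * (2 : ℝ) ^ (E.δ / 2 * i)) / 2 ^ i) := by ring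
    rw [e2, ← e1]
    field_simp
  rw [h6]
  have h7 : 5 / (i : ℝ) ^ 10 ≤ 1 / 16 := by
    rw [div_le_div_iff₀ (by positivity) (by norm_num)]
    have : (3 : ℝ) ^ 10 ≤ (i : ℝ) ^ 10 := pow_le_pow_left₀ (by norm_num) hiR 10
    linarith
  have h8 := w_nonneg E i
  have h9 := mul_le_mul_of_nonneg_right h7 h8
  linarith

end Pool.Agent.W683.MO
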