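import Pool.Agent.W683.MO.GB2

/-!
# MP_a187e6_nt: task SP, part 1 (control primes of the first kind)
-/

set_option autoImplicit false

namespace Pool.Agent.W683.MO

open Finset Filter Topology
open scoped Classical
open Pool.Agent.W76.MO

theorem sum_le_prod_two {ι : Type*} (T : Finset ι) (a : ι → ℕ) (ha : ∀ p ∈ T, 2 ≤ a p)
    (hT : T.Nonempty) : ∑ p ∈ T, a p ≤ ∏ p ∈ T, a p := by
  induction hT using Finset.Nonempty.cons_induction with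
  | singleton x => simp
  | cons x s hx hs ih =>
    rw [sum_cons, prod_cons]
    have h1 := ih (fun p hp => ha p (mem_cons_of_mem hp))
    have h2 := ha x (mem_cons_self x s)
    have h3 : 2 ≤ ∏ p ∈ s, a p := by
      obtain ⟨y, hy⟩ := hs
      have h4 : 2 ≤ ∑ p ∈ s, a p :=
        (ha y (mem_cons_of_mem hy)).trans (single_le_sum (fun _ _ => Nat.zero_le _) hy)
      omega
    nlinarith

/-- numbers `2 ≤ a p ≤ (3/5) i` with sum `> (24/25) i` have a product `≥ i²/10` -/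
theorem prod_large {ι : Type*} (F : Finset ι) (a : ι → ℕ) (i : ℕ) (hi : 1 ≤ i)
    (ha : ∀ p ∈ F, 2 ≤ a p) (ha' : ∀ p ∈ F, 10 * a p ≤ 6 * i)
    (hS : 24 * i < 25 * ∑ p ∈ F, a p) : i ^ 2 ≤ 10 * ∏ p ∈ F, a p := by
  obtain ⟨T, hT, hmax⟩ := Finset.exists_max_image
    (F.powerset.filter (fun T => 10 * ∑ p ∈ T, a p ≤ 6 * i)) (fun T => ∑ p ∈ T, a p)
    ⟨∅, by simp⟩
  rw [mem_filter, mem_powerset] at hT
  obtain ⟨hTF, hT6⟩ := hT
  have hsplit : ∑ p ∈ F \ T, a p + ∑ p ∈ T, a p = ∑ p ∈ F, a p := sum_sdiff hTF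
  have hsplit2 : (∏ p ∈ F \ T, a p) * ∏ p ∈ T, a p = ∏ p ∈ F, a p := prod_sdiff hTF
  have h3 : 3 * i ≤ 10 * ∑ p ∈ T, a p := by
    by_contra hlt
    push Not at hlt
    have hne : (F \ T).Nonempty := by
      rw [nonempty_iff_ne_empty]
      intro h0
      rw [h0, sum_empty] at hsplit
      omega
    obtain ⟨p, hp⟩ := hne
    rw [Finset.mem_sdiff] at hp
    have hap := ha p hp.1
    have hap' := ha' p hp.1
    by_cases hc : 10 * (a p + ∑ p ∈ T, a p) ≤ 6 * i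
    · have h4 := hmax (insert p T) (by
        rw [mem_filter, mem_powerset, sum_insert hp.2]
        exact ⟨insert_subset hp.1 hTF, hc⟩)
      rw [sum_insert hp.2] at h4
      omega
    · have h4 := hmax {p} (by
        rw [mem_filter, mem_powerset, sum_singleton, singleton_subset_iff]
        exact ⟨hp.1, hap'⟩)
      rw [sum_singleton] at h4
      omega
  have hT1 : T.Nonempty := by
    rw [nonempty_iff_ne_empty]
    intro h0
    rw [h0, sum_empty] at h3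
    omega
  have hT2 : (F \ T).Nonempty := by
    rw [nonempty_iff_ne_empty]
    intro h0
    rw [h0, sum_empty] at hsplit
    omega
  have e1 := sum_le_prod_two T a (fun p hp => ha p (hTF hp)) hT1
  have e2 := sum_le_prod_two (F \ T) a (fun p hp => ha p (Finset.mem_sdiff.1 hp).1) hT2
  have e3 : 36 * i ≤ 100 * ∑ p ∈ F \ T, a p := by omega
  rw [← hsplit2]
  have e4 : 36 * i ≤ 100 * ∏ p ∈ F \ T, a p := by omega
  have e5 : 3 * i ≤ 10 * ∏ p ∈ T, a p := by omega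
  have e6 : (36 * i) * (3 * i) ≤ (100 * ∏ p ∈ F \ T, a p) * (10 * ∏ p ∈ T, a p) :=
    Nat.mul_le_mul e4 e5
  nlinarith

/-- (A) -/
theorem A_bound (E : Env) (hG : E.GBounds) : ∃ J : ℕ, 1 ≤ J ∧ ∀ j : ℕ, J ≤ j → ∀ i : ℕ, j ≤ i →
    ∀ n : ℕ, 1 ≤ n → n ≤ 2 ^ (i + 1) →
      ∏ p ∈ n.primeFactors.filter (fun p : ℕ => (p : ℝ) ≤ (2 : ℝ) ^ (3 / 5 * (i : ℝ))),
        (1 + 2 * (p * E.gu j p)) ≤ (2 : ℝ) ^ (E.δ / 2 * i) / (i : ℝ) ^ 50 := by
  have hδ := E.hδ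
  have hδ1 : E.δ ≤ 1 := by have := E.hδ'; have := E.hτ'; linarith
  obtain ⟨J0, hJ0, hJ⟩ := hG
  obtain ⟨J1, hJ1⟩ := large (E.δ / 50) 1 50 (by linarith)
  refine ⟨J0 + J1 + 1003, by omega, fun j hj i hij n hn1 hn => ?_⟩
  obtain ⟨-, -, -, g4, -, g6, -, -, -⟩ := hJ j (by omega)
  set F : Finset ℕ := (n.primeFactors.filter
    (fun p : ℕ => (p : ℝ) ≤ (2 : ℝ) ^ (3 / 5 * (i : ℝ)))).filter (fun p => E.U j p) with hF
  have e1 : ∏ p ∈ n.primeFactors.filter (fun p : ℕ => (p : ℝ) ≤ (2 : ℝ) ^ (3 / 5 * (i : ℝ))),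
        (1 + 2 * (p * E.gu j p)) = ∏ p ∈ F, (1 + 2 * (p * E.gu j p)) := by
    symm
    apply prod_filter_of_ne
    intro p _ hne
    apply g4
    intro h0
    apply hne
    rw [h0]; ring
  rw [e1]
  have hFU : ∀ p ∈ F, E.U j p := fun p hp => (mem_filter.1 hp).2
  have hFs : F ⊆ n.primeFactors := fun p hp => (mem_filter.1 (mem_filter.1 hp).1).1
  have hFp : ∀ p ∈ F, (p : ℝ) ≤ (2 : ℝ) ^ (3 / 5 * (i : ℝ)) :=
    fun p hp => (mem_filter.1 (mem_filter.1 hp).1).2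
  have hsc : ∀ p ∈ F, 2 ^ Env.sc p < p := by
    intro p hp
    exact (sc_spec (E.u_prime p (hFU p hp).1).two_le).1
  have ha2 : ∀ p ∈ F, 2 ≤ Env.sc p := by
    intro p hp
    have := (g6 p (hFU p hp)).1
    omega
  have ha6 : ∀ p ∈ F, 10 * Env.sc p ≤ 6 * i := by
    intro p hp
    have h1 : (2 : ℝ) ^ ((Env.sc p : ℕ) : ℝ) < (2 : ℝ) ^ (3 / 5 * (i : ℝ)) := by
      rw [Real.rpow_natCast]
      refine lt_of_lt_of_le ?_ (hFp p hp)
      exact_mod_cast hsc p hp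
    have h2 := (Real.rpow_lt_rpow_left_iff (by norm_num)).1 h1
    have h3 : (10 * Env.sc p : ℝ) ≤ 6 * i := by linarith
    exact_mod_cast h3
  have hSum : ∑ p ∈ F, Env.sc p ≤ i + 1 := by
    have h1 : ∏ p ∈ F, 2 ^ Env.sc p ≤ ∏ p ∈ F, p :=
      prod_le_prod' (fun p hp => (hsc p hp).le)
    have h2 : ∏ p ∈ F, p ∣ n :=
      (prod_dvd_prod_of_subset _ _ _ hFs).trans (Nat.prod_primeFactors_dvd n)
    have h3 := Nat.le_of_dvd (by omega) h2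
    rw [prod_pow_eq_pow_sum] at h1
    have h4 : 2 ^ (∑ p ∈ F, Env.sc p) ≤ 2 ^ (i + 1) := by omega
    exact (Nat.pow_le_pow_iff_right (by norm_num)).1 h4
  have hprod : ∏ p ∈ F, (1 + 2 * ((p : ℝ) * E.gu j p)) ≤
      (2 : ℝ) ^ (E.δ / 2 * ((∑ p ∈ F, Env.sc p : ℕ) : ℝ)) /
        ((∏ p ∈ F, Env.sc p : ℕ) : ℝ) ^ 35 := by
    have h1 : ∏ p ∈ F, (1 + 2 * ((p : ℝ) * E.gu j p)) ≤
        ∏ p ∈ F, ((2 : ℝ) ^ (E.δ / 2 * Env.sc p) / (Env.sc p : ℝ) ^ 35) := by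
      apply Finset.prod_le_prod
      · intro p _
        have := gu_nonneg E j p
        positivity
      · intro p hp
        exact (g6 p (hFU p hp)).2
    refine h1.trans (le_of_eq ?_)
    rw [prod_div_distrib]
    congr 1
    · rw [← Real.rpow_sum_of_pos (by norm_num)]
      congr 1
      push_cast
      rw [mul_sum]
    · push_cast
      rw [prod_pow]
  refine hprod.trans ?_
  have hiR : (1000 : ℝ) ≤ i := by exact_mod_cast (by omega : 1000 ≤ i)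
  have hPpos : 1 ≤ ∏ p ∈ F, Env.sc p := by
    apply Nat.one_le_iff_ne_zero.2
    rw [prod_ne_zero_iff]
    intro p hp
    have := ha2 p hp
    omega
  have hPR : (1 : ℝ) ≤ ((∏ p ∈ F, Env.sc p : ℕ) : ℝ) := by exact_mod_cast hPpos
  by_cases hc : 25 * ∑ p ∈ F, Env.sc p ≤ 24 * i
  · have hbig := hJ1 i (by omega)
    rw [one_mul] at hbig
    have hc' : (25 : ℝ) * ((∑ p ∈ F, Env.sc p : ℕ) : ℝ) ≤ 24 * i := by exact_mod_cast hc
    rw [div_le_div_iff₀ (by positivity) (by positivity)]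
    have h1 : (2 : ℝ) ^ (E.δ / 2 * ((∑ p ∈ F, Env.sc p : ℕ) : ℝ)) * (i : ℝ) ^ 50 ≤
        (2 : ℝ) ^ (E.δ / 2 * ((∑ p ∈ F, Env.sc p : ℕ) : ℝ)) * (2 : ℝ) ^ (E.δ / 50 * i) :=
      mul_le_mul_of_nonneg_left hbig (by positivity)
    have h2 : (2 : ℝ) ^ (E.δ / 2 * ((∑ p ∈ F, Env.sc p : ℕ) : ℝ)) * (2 : ℝ) ^ (E.δ / 50 * i) ≤
        (2 : ℝ) ^ (E.δ / 2 * i) := by
      rw [← Real.rpow_add (by norm_num)]
      apply Real.rpow_le_rpow_of_exponent_le (by norm_num)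
      nlinarith
    have h3 : (1 : ℝ) ≤ ((∏ p ∈ F, Env.sc p : ℕ) : ℝ) ^ 35 := one_le_pow₀ hPR
    have h4 : (0 : ℝ) < (2 : ℝ) ^ (E.δ / 2 * i) := by positivity
    nlinarith
  · push Not at hc
    have h1 := prod_large F Env.sc i (by omega) ha2 ha6 hc
    have h1R : (i : ℝ) ^ 2 ≤ 10 * ((∏ p ∈ F, Env.sc p : ℕ) : ℝ) := by exact_mod_cast h1
    have h2 : ((i : ℝ) ^ 2) ^ 35 ≤ (10 * ((∏ p ∈ F, Env.sc p : ℕ) : ℝ)) ^ 35 :=
      pow_le_pow_left₀ (by positivity) h1R 35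
    have h3 : (1000 : ℝ) ^ 20 ≤ (i : ℝ) ^ 20 := pow_le_pow_left₀ (by norm_num) hiR 20
    have h4 : 2 * (i : ℝ) ^ 50 ≤ ((∏ p ∈ F, Env.sc p : ℕ) : ℝ) ^ 35 := by
      have e2 : (10 * ((∏ p ∈ F, Env.sc p : ℕ) : ℝ)) ^ 35 =
          10 ^ 35 * ((∏ p ∈ F, Env.sc p : ℕ) : ℝ) ^ 35 := by rw [mul_pow]
      have e3 : ((i : ℝ) ^ 2) ^ 35 = (i : ℝ) ^ 20 * (i : ℝ) ^ 50 := by ring
      rw [e2, e3] at h2
      have e4 : (1000 : ℝ) ^ 20 * (i : ℝ) ^ 50 ≤ (i : ℝ) ^ 20 * (i : ℝ) ^ 50 :=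
        mul_le_mul_of_nonneg_right h3 (by positivity)
      have e5 : (10 : ℝ) ^ 35 * (2 * (i : ℝ) ^ 50) ≤ (1000 : ℝ) ^ 20 * (i : ℝ) ^ 50 := by
        have : (0 : ℝ) ≤ (i : ℝ) ^ 50 := by positivity
        nlinarith
      have e6 : (10 : ℝ) ^ 35 * (2 * (i : ℝ) ^ 50) ≤
          10 ^ 35 * ((∏ p ∈ F, Env.sc p : ℕ) : ℝ) ^ 35 := by linarith
      exact le_of_mul_le_mul_left e6 (by positivity)
    rw [div_le_div_iff₀ (by positivity) (by positivity)]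
    have h5 : (2 : ℝ) ^ (E.δ / 2 * ((∑ p ∈ F, Env.sc p : ℕ) : ℝ)) ≤
        2 * (2 : ℝ) ^ (E.δ / 2 * i) := by
      have e1 : ((∑ p ∈ F, Env.sc p : ℕ) : ℝ) ≤ i + 1 := by exact_mod_cast hSum
      calc (2 : ℝ) ^ (E.δ / 2 * ((∑ p ∈ F, Env.sc p : ℕ) : ℝ)) ≤
          (2 : ℝ) ^ (1 + E.δ / 2 * i) := by
            apply Real.rpow_le_rpow_of_exponent_le (by norm_num)
            nlinarith
        _ = _ := by rw [Real.rpow_add (by norm_num), Real.rpow_one]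
    calc (2 : ℝ) ^ (E.δ / 2 * ((∑ p ∈ F, Env.sc p : ℕ) : ℝ)) * (i : ℝ) ^ 50 ≤
        (2 * (2 : ℝ) ^ (E.δ / 2 * i)) * (i : ℝ) ^ 50 :=
          mul_le_mul_of_nonneg_right h5 (by positivity)
      _ = (2 : ℝ) ^ (E.δ / 2 * i) * (2 * (i : ℝ) ^ 50) := by ring
      _ ≤ _ := mul_le_mul_of_nonneg_left h4 (by positivity)

end Pool.Agent.W683.MO
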